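import Mathlib

set_option autoImplicit false

/-!
# Places where `b ^ j β` is far from the integers
-/

namespace Pool.Agent.K9h10.SM

/-- the distance to the nearest integer -/
noncomputable def nd (t : ℝ) : ℝ := |t - round t|

lemma nd_nonneg (t : ℝ) : 0 ≤ nd t := abs_nonneg _

lemma nd_le (t : ℝ) : nd t ≤ 1 / 2 := abs_sub_round t

lemma nd_le_int (t : ℝ) (n : ℤ) : nd t ≤ |t - n| := round_le t n

lemma nd_int_mul (m : ℤ) (t : ℝ) : nd (m * t) ≤ |(m : ℝ)| * nd t := by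
  have h := nd_le_int (m * t) (m * round t)
  refine h.trans (le_of_eq ?_)
  unfold nd
  push_cast
  rw [← mul_sub, abs_mul]

lemma nd_eq_of {t : ℝ} {n : ℤ} (h : |t - n| < 1 / 2) : nd t = |t - n| := by
  have h1 : |(round t : ℝ) - n| < 1 := by
    have h2 := nd_le t
    unfold nd at h2
    calc |(round t : ℝ) - n| = |(t - n) - (t - round t)| := by ring_nf
      _ ≤ |t - n| + |t - round t| := abs_sub _ _
      _ < 1 := by linarith
  have h2 : round t = n := by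
    have h3 : |round t - n| < 1 := by exact_mod_cast h1
    have := Int.abs_lt_one_iff.1 h3
    omega
  unfold nd
  rw [h2]

lemma nd_mul {b : ℕ} (hb : 2 ≤ b) {t : ℝ} (h : nd t < 1 / (2 * b)) : nd (b * t) = b * nd t := by
  have hb0 : (0 : ℝ) < b := by exact_mod_cast (by omega : 0 < b)
  have e : |(b : ℝ) * t - ((b * round t : ℤ) : ℝ)| = b * nd t := by
    unfold nd
    push_cast
    rw [← mul_sub, abs_mul, abs_of_pos hb0]
  rw [nd_eq_of (n := b * round t), e]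
  rw [e]
  rw [lt_div_iff₀ (by positivity)] at h
  linarith

lemma nd_pow {b : ℕ} (hb : 2 ≤ b) (β : ℝ) (j0 L : ℕ)
    (h : ∀ j, j0 ≤ j → j < j0 + L → nd ((b : ℝ) ^ j * β) < 1 / (2 * b)) :
    nd ((b : ℝ) ^ (j0 + L) * β) = (b : ℝ) ^ L * nd ((b : ℝ) ^ j0 * β) := by
  induction L with
  | zero => simp
  | succ L ih =>
    have h1 := ih fun j hj1 hj2 => h j hj1 (by omega)
    have h2 := nd_mul hb (h (j0 + L) (by omega) (by omega))
    have e : (b : ℝ) ^ (j0 + (L + 1)) * β = b * ((b : ℝ) ^ (j0 + L) * β) := by ring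
    rw [e, h2, h1]
    ring

/-- there is a good place soon after `j0` -/
lemma exists_good {b : ℕ} (hb : 2 ≤ b) (β : ℝ) (n D : ℕ)
    (h : ∀ j, 1 ≤ (b : ℝ) ^ (n * j + D) * nd ((b : ℝ) ^ j * β)) (j0 : ℕ) :
    ∃ j, j0 ≤ j ∧ j < j0 + (n * j0 + D) ∧ 1 / (2 * (b : ℝ)) ≤ nd ((b : ℝ) ^ j * β) := by
  by_contra hcon
  push Not at hcon
  have h1 := nd_pow hb β j0 (n * j0 + D) fun j hj1 hj2 => hcon j hj1 hj2
  have h2 := nd_le ((b : ℝ) ^ (j0 + (n * j0 + D)) * β)
  have h3 := h j0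
  rw [h1] at h2
  linarith

/-- one good place in every interval `[A^k, A^(k+1))` -/
lemma exists_seq {b : ℕ} (hb : 2 ≤ b) (β : ℝ) (n D : ℕ)
    (h : ∀ j, 1 ≤ (b : ℝ) ^ (n * j + D) * nd ((b : ℝ) ^ j * β)) :
    ∃ (A : ℕ) (J : ℕ → ℕ), 2 ≤ A ∧ ∀ k, A ^ k ≤ J k ∧ J k < A ^ (k + 1) ∧
      1 / (2 * (b : ℝ)) ≤ nd ((b : ℝ) ^ J k * β) := by
  have key : ∀ k, ∃ j, (n + D + 2) ^ k ≤ j ∧ j < (n + D + 2) ^ (k + 1) ∧
      1 / (2 * (b : ℝ)) ≤ nd ((b : ℝ) ^ j * β) := by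
    intro k
    obtain ⟨j, h1, h2, h3⟩ := exists_good hb β n D h ((n + D + 2) ^ k)
    refine ⟨j, h1, lt_of_lt_of_le h2 ?_, h3⟩
    have h4 : 1 ≤ (n + D + 2) ^ k := Nat.one_le_pow _ _ (by omega)
    rw [pow_succ]
    nlinarith
  choose J hJ using key
  exact ⟨n + D + 2, J, by omega, hJ⟩

/-- the hypothesis of the lemmas above for the multiples of numbers which are not Liouville numbers -/
lemma exists_nD {b : ℕ} (hb : 2 ≤ b) {α : ℝ} (hα : Irrational α) (hL : ¬ Liouville α) {h : ℤ}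
    (hh : h ≠ 0) : ∃ n D : ℕ, ∀ j, 1 ≤ (b : ℝ) ^ (n * j + D) * nd ((b : ℝ) ^ j * (h * α)) := by
  unfold Liouville at hL
  push Not at hL
  obtain ⟨n, hn⟩ := hL
  have hb1 : (1 : ℝ) < b := by exact_mod_cast (by omega : 1 < b)
  have hpos : 0 < nd (h * α) := by
    unfold nd
    rw [abs_pos, sub_ne_zero]
    have h1 : Irrational (h * α) := hα.intCast_mul hh
    exact h1.ne_int _
  obtain ⟨D1, hD1⟩ := pow_unbounded_of_one_lt (1 / nd (h * α)) hb1
  obtain ⟨D2, hD2⟩ := pow_unbounded_of_one_lt (|(h : ℝ)| ^ n) hb1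
  refine ⟨n, D1 + D2, fun j => ?_⟩
  have hb0 : (0 : ℝ) < b := by linarith
  rcases Nat.eq_zero_or_pos j with rfl | hj
  · rw [pow_zero, one_mul, mul_zero, zero_add, pow_add]
    have h1 : 1 ≤ (b : ℝ) ^ D1 * nd (h * α) := by
      rw [div_lt_iff₀ hpos] at hD1
      exact hD1.le
    have h2 : 1 ≤ (b : ℝ) ^ D2 := one_le_pow₀ hb1.le
    nlinarith
  · -- `q = b^j |h| ≥ 2`
    set r : ℤ := round ((b : ℝ) ^ j * (h * α)) with hr
    set q : ℤ := (b : ℤ) ^ j * |h| with hq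
    have hh1 : 1 ≤ |h| := Int.one_le_abs hh
    have hbj : 2 ≤ (b : ℤ) ^ j := by
      calc (2 : ℤ) ≤ (b : ℤ) := by exact_mod_cast hb
        _ = (b : ℤ) ^ 1 := (pow_one _).symm
        _ ≤ (b : ℤ) ^ j := pow_le_pow_right₀ (by exact_mod_cast (by omega : 1 ≤ b)) hj
    have hq1 : 1 < q := by
      rw [hq]
      nlinarith
    have hq0 : (0 : ℝ) < q := by exact_mod_cast (by omega : (0 : ℤ) < q)
    have h1 := hn (h.sign * r) q hq1 (by
      intro hcon
      apply hα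
      rw [hcon]
      exact ⟨((h.sign * r : ℤ) : ℚ) / q, by push_cast; ring⟩)
    have hsgn : (h : ℝ) = (h.sign : ℝ) * (|h| : ℤ) := by exact_mod_cast (Int.sign_mul_abs h).symm
    have hs1 : ((h.sign : ℤ) : ℝ) * h.sign = 1 := by
      have : h.sign * h.sign = 1 := by
        rcases lt_or_gt_of_ne hh with h0 | h0
        · rw [Int.sign_eq_neg_one_of_neg h0]; norm_num
        · rw [Int.sign_eq_one_of_pos h0]; norm_num
      exact_mod_cast this
    have hs2 : |((h.sign : ℤ) : ℝ)| = 1 := by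
      rcases lt_or_gt_of_ne hh with h0 | h0
      · rw [Int.sign_eq_neg_one_of_neg h0]; norm_num
      · rw [Int.sign_eq_one_of_pos h0]; norm_num
    have e1 : nd ((b : ℝ) ^ j * (h * α)) = q * |α - ((h.sign * r : ℤ) : ℝ) / q| := by
      unfold nd
      rw [← hr]
      have e2 : (b : ℝ) ^ j * (h * α) - r = (h.sign : ℝ) * (q * (α - ((h.sign * r : ℤ) : ℝ) / q)) := by
        have e3 : (q : ℝ) * (α - ((h.sign * r : ℤ) : ℝ) / q) = q * α - (h.sign : ℝ) * r := by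
          push_cast
          field_simp
        have e4 : (h.sign : ℝ) * (q : ℝ) = (b : ℝ) ^ j * h := by
          have e5 : (q : ℝ) = (b : ℝ) ^ j * (|h| : ℤ) := by
            rw [hq]
            push_cast
            rfl
          rw [e5]
          linear_combination (-(b : ℝ) ^ j) * hsgn
        rw [e3]
        linear_combination (-α) * e4 + (r : ℝ) * hs1
      rw [e2, abs_mul, hs2, one_mul, abs_mul, abs_of_pos hq0]
    rw [e1]
    have h2 : 1 ≤ (q : ℝ) ^ n * |α - ((h.sign * r : ℤ) : ℝ) / q| := by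
      have h3 : 1 / (q : ℝ) ^ n ≤ |α - ((h.sign * r : ℤ) : ℝ) / q| := h1
      rwa [div_le_iff₀' (by positivity)] at h3
    have h3 : (1 : ℝ) ≤ q := by exact_mod_cast hq1.le
    have h4 : (q : ℝ) ^ n ≤ (b : ℝ) ^ (n * j + (D1 + D2)) := by
      rw [hq]
      push_cast
      rw [mul_pow, ← pow_mul, mul_comm j n, pow_add]
      refine mul_le_mul_of_nonneg_left ?_ (by positivity)
      rw [pow_add]
      have h5 : 1 ≤ (b : ℝ) ^ D1 := one_le_pow₀ hb1.le
      have h6 : 0 ≤ |(h : ℝ)| ^ n := by positivity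
      nlinarith
    have h5 := abs_nonneg (α - ((h.sign * r : ℤ) : ℝ) / q)
    calc (1 : ℝ) ≤ (q : ℝ) ^ n * |α - ((h.sign * r : ℤ) : ℝ) / q| := h2
      _ ≤ (b : ℝ) ^ (n * j + (D1 + D2)) * |α - ((h.sign * r : ℤ) : ℝ) / q| :=
        mul_le_mul_of_nonneg_right h4 h5
      _ ≤ (b : ℝ) ^ (n * j + (D1 + D2)) * (q * |α - ((h.sign * r : ℤ) : ℝ) / q|) := by
        refine mul_le_mul_of_nonneg_left ?_ (by positivity)
        nlinarith

end Pool.Agent.K9h10.SM
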