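import Mathlib
import Pool.Agent.H534R3.UD
import Pool.Agent.K9h10.SM.Dig

set_option autoImplicit false

/-!
# The characteristic function of an integer valued random variable
-/

namespace Pool.Agent.K9h10.SM

open MeasureTheory ProbabilityTheory
open Pool.Agent.H534R3.UDist (ee norm_ee)

lemma ee_add (s t : ℝ) : ee (s + t) = ee s * ee t := by
  unfold ee
  rw [← Complex.exp_add]
  congr 1
  push_cast
  ring

lemma ee_zero : ee 0 = 1 := by
  unfold ee
  simp

lemma ee_sum {ι : Type} (s : Finset ι) (f : ι → ℝ) : ee (∑ i ∈ s, f i) = ∏ i ∈ s, ee (f i) := by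
  classical
  induction s using Finset.induction_on with
  | empty => simp [ee_zero]
  | insert a s ha ih => rw [Finset.sum_insert ha, Finset.prod_insert ha, ee_add, ih]

lemma ee_int (n : ℤ) : ee n = 1 := by
  unfold ee
  have := Complex.exp_int_mul_two_pi_mul_I n
  rw [← this]
  congr 1
  push_cast
  ring

lemma ee_continuous : Continuous ee := by
  unfold ee
  fun_prop

lemma ee_re (t : ℝ) : (ee t).re = Real.cos (2 * Real.pi * t) := by
  unfold ee
  have : (2 * Real.pi * Complex.I * t : ℂ) = ((2 * Real.pi * t : ℝ) : ℂ) * Complex.I := by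
    push_cast; ring
  rw [this, Complex.exp_ofReal_mul_I_re]

lemma norm_ee_sub (s t : ℝ) : ‖ee s - ee t‖ ≤ 2 * Real.pi * |s - t| := by
  have e : ee s - ee t = ee t * (ee (s - t) - 1) := by
    rw [mul_sub, ← ee_add, mul_one]
    congr 2
    ring
  rw [e, norm_mul, norm_ee, one_mul]
  have h := Real.norm_exp_I_mul_ofReal_sub_one_le (x := 2 * Real.pi * (s - t))
  have e2 : ee (s - t) = Complex.exp (Complex.I * ((2 * Real.pi * (s - t) : ℝ) : ℂ)) := by
    unfold ee
    congr 1
    push_cast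
    ring
  rw [e2]
  refine h.trans (le_of_eq ?_)
  rw [Real.norm_eq_abs, abs_mul, abs_of_pos Real.two_pi_pos]

/-- the sine of `π t` is at least twice the distance of `t` to the integers -/
lemma sin_ge (t : ℝ) : 2 * nd t ≤ |Real.sin (Real.pi * t)| := by
  have h1 : |Real.sin (Real.pi * t)| = |Real.sin (Real.pi * (t - round t))| := by
    rw [mul_sub, mul_comm Real.pi (round t : ℝ), Real.sin_sub_int_mul_pi, abs_mul, abs_zpow, abs_neg,
      abs_one, one_zpow, one_mul]
  rw [h1]
  unfold nd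
  have h2 := abs_sub_round t
  set u := t - round t
  have h3 : 2 * |u| ≤ Real.sin (Real.pi * |u|) := by
    have h4 := Real.mul_le_sin (x := Real.pi * |u|) (by positivity) (by
      have := Real.pi_pos
      nlinarith)
    have h5 : 2 / Real.pi * (Real.pi * |u|) = 2 * |u| := by
      have := Real.pi_ne_zero
      field_simp
    rwa [h5] at h4
  rcases le_total 0 u with h | h
  · rw [abs_of_nonneg h] at h3 ⊢
    exact h3.trans (le_abs_self _)
  · rw [abs_of_nonpos h] at h3 ⊢
    rw [show Real.pi * -u = -(Real.pi * u) by ring, Real.sin_neg] at h3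
    exact h3.trans (neg_le_abs _)

lemma two_point (p q t : ℝ) (hp : 0 ≤ p) (hq : 0 ≤ q) (hpq : p + q ≤ 1) :
    ‖(p : ℂ) + q * ee t‖ ≤ p + q - 2 * (p * q) * Real.sin (Real.pi * t) ^ 2 := by
  have hs : Real.sin (Real.pi * t) ^ 2 ≤ 1 := Real.sin_sq_le_one _
  have hs0 : 0 ≤ Real.sin (Real.pi * t) ^ 2 := sq_nonneg _
  have hpq2 : p * q ≤ 1 / 4 := by nlinarith [sq_nonneg (p - q)]
  have hpq3 : 2 * (p * q) ≤ p + q := by nlinarith
  have h0 : 0 ≤ p + q - 2 * (p * q) * Real.sin (Real.pi * t) ^ 2 := by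
    have : 2 * (p * q) * Real.sin (Real.pi * t) ^ 2 ≤ 2 * (p * q) * 1 :=
      mul_le_mul_of_nonneg_left hs (by positivity)
    linarith
  refine abs_le_of_sq_le_sq' ?_ h0 |>.2
  have e1 : ‖(p : ℂ) + q * ee t‖ ^ 2 = p ^ 2 + q ^ 2 + 2 * p * q * Real.cos (2 * Real.pi * t) := by
    rw [← Complex.normSq_eq_norm_sq, Complex.normSq_add, Complex.normSq_mul, Complex.normSq_ofReal,
      Complex.normSq_ofReal, Complex.normSq_eq_norm_sq (ee t), norm_ee, map_mul, Complex.conj_ofReal]
    have : ((p : ℂ) * (q * (starRingEnd ℂ) (ee t))).re = p * q * Real.cos (2 * Real.pi * t) := by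
      rw [Complex.re_ofReal_mul, Complex.re_ofReal_mul, Complex.conj_re, ee_re]
      ring
    rw [this]
    ring
  have e2 : Real.cos (2 * Real.pi * t) = 1 - 2 * Real.sin (Real.pi * t) ^ 2 := by
    rw [mul_assoc, Real.cos_two_mul, Real.cos_sq']
    ring
  rw [e1, e2]
  have h1 : 4 * (p * q) * (p + q) * Real.sin (Real.pi * t) ^ 2 ≤ 4 * (p * q) * 1 * Real.sin (Real.pi * t) ^ 2 := by
    refine mul_le_mul_of_nonneg_right ?_ hs0
    exact mul_le_mul_of_nonneg_left hpq (by positivity)
  nlinarith [sq_nonneg (p * q * Real.sin (Real.pi * t) ^ 2)]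

variable {Ω : Type*} [MeasurableSpace Ω] {P : Measure Ω} [IsProbabilityMeasure P]

/-- the bound for the characteristic function -/
lemma char_le {X : Ω → ℤ} (hX : Measurable X) {a a' : ℤ} (haa : a ≠ a') (t : ℝ) :
    ‖∫ ω, ee (t * X ω) ∂P‖ ≤
      1 - 2 * (P.real {ω | X ω = a} * P.real {ω | X ω = a'}) *
        Real.sin (Real.pi * (t * (a' - a))) ^ 2 := by
  set A : Set Ω := {ω | X ω = a} with hA
  set B : Set Ω := {ω | X ω = a'} with hB
  have hAm : MeasurableSet A := hX (measurableSet_singleton a)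
  have hBm : MeasurableSet B := hX (measurableSet_singleton a')
  have hAB : Disjoint A B := by
    rw [Set.disjoint_left]
    intro ω h1 h2
    simp only [hA, hB, Set.mem_ofPred_eq] at h1 h2
    omega
  have hm : Measurable fun ω => ee (t * X ω) :=
    ee_continuous.measurable.comp (measurable_const.mul (Measurable.of_discrete.comp hX))
  have hint : Integrable (fun ω => ee (t * X ω)) P :=
    Integrable.of_bound hm.aestronglyMeasurable 1 (Filter.Eventually.of_forall fun ω => (norm_ee _).le)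
  have h1 : ∫ ω, ee (t * X ω) ∂P = (∫ ω in A ∪ B, ee (t * X ω) ∂P) +
      ∫ ω in (A ∪ B)ᶜ, ee (t * X ω) ∂P := (integral_add_compl (hAm.union hBm) hint).symm
  have h2 : ∫ ω in A ∪ B, ee (t * X ω) ∂P = (∫ ω in A, ee (t * X ω) ∂P) +
      ∫ ω in B, ee (t * X ω) ∂P :=
    setIntegral_union hAB hBm hint.integrableOn hint.integrableOn
  have h3 : ∫ ω in A, ee (t * X ω) ∂P = P.real A * ee (t * a) := by
    rw [setIntegral_congr_fun (g := fun _ => ee (t * a)) hAm (fun ω hω => by
      simp only [hA, Set.mem_ofPred_eq] at hω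
      simp only [hω])]
    rw [setIntegral_const, Complex.real_smul]
  have h4 : ∫ ω in B, ee (t * X ω) ∂P = P.real B * ee (t * a') := by
    rw [setIntegral_congr_fun (g := fun _ => ee (t * a')) hBm (fun ω hω => by
      simp only [hB, Set.mem_ofPred_eq] at hω
      simp only [hω])]
    rw [setIntegral_const, Complex.real_smul]
  have h5 : ‖∫ ω in (A ∪ B)ᶜ, ee (t * X ω) ∂P‖ ≤ 1 * P.real (A ∪ B)ᶜ := by
    refine norm_setIntegral_le_of_norm_le_const (measure_lt_top _ _) fun ω _ => (norm_ee _).le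
  have h6 : P.real (A ∪ B)ᶜ = 1 - (P.real A + P.real B) := by
    rw [probReal_compl_eq_one_sub (hAm.union hBm), measureReal_union hAB hBm]
  have h7 : P.real A + P.real B ≤ 1 := by
    have : 0 ≤ P.real (A ∪ B)ᶜ := measureReal_nonneg
    linarith
  have h8 : (P.real A : ℂ) * ee (t * a) + P.real B * ee (t * a') =
      ee (t * a) * ((P.real A : ℂ) + P.real B * ee (t * (a' - a))) := by
    have e : t * (a' : ℝ) = t * a + t * (a' - a) := by ring
    rw [e, ee_add]
    ring
  rw [h1, h2, h3, h4, h8]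
  have h9 := two_point (P.real A) (P.real B) (t * (a' - a)) measureReal_nonneg measureReal_nonneg h7
  calc ‖ee (t * a) * ((P.real A : ℂ) + P.real B * ee (t * (a' - a))) +
          ∫ ω in (A ∪ B)ᶜ, ee (t * X ω) ∂P‖
      ≤ ‖ee (t * a) * ((P.real A : ℂ) + P.real B * ee (t * (a' - a)))‖ + ‖∫ ω in (A ∪ B)ᶜ, ee (t * X ω) ∂P‖ :=
        norm_add_le _ _
    _ ≤ (P.real A + P.real B - 2 * (P.real A * P.real B) *
          Real.sin (Real.pi * (t * (a' - a))) ^ 2) +
        (1 - (P.real A + P.real B)) := by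
        rw [norm_mul, norm_ee, one_mul]
        rw [h6, one_mul] at h5
        exact add_le_add h9 h5
    _ = _ := by ring

/-- the form that we use -/
lemma char_le' {X : Ω → ℤ} (hX : Measurable X) {a a' : ℤ} (haa : a ≠ a') (t v δ : ℝ) (hδ : 0 ≤ δ)
    (ht : δ ≤ nd (t * (a' - a)))
    (hv : v ≤ P.real {ω | X ω = a} * P.real {ω | X ω = a'}) (hv0 : 0 ≤ v) :
    ‖∫ ω, ee (t * X ω) ∂P‖ ≤ Real.exp (-(8 * δ ^ 2 * v)) := by
  have h1 := char_le (P := P) hX haa t
  have h2 := sin_ge (t * (a' - a))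
  have h3 : 4 * δ ^ 2 ≤ Real.sin (Real.pi * (t * (a' - a))) ^ 2 := by
    rw [← sq_abs (Real.sin _)]
    nlinarith
  have h4 : v * (4 * δ ^ 2) ≤ P.real {ω | X ω = a} * P.real {ω | X ω = a'} *
      Real.sin (Real.pi * (t * (a' - a))) ^ 2 :=
    mul_le_mul hv h3 (by positivity) (hv0.trans hv)
  have h5 := Real.add_one_le_exp (-(8 * δ ^ 2 * v))
  linarith

lemma char_le_one {X : Ω → ℤ} (t : ℝ) : ‖∫ ω, ee (t * X ω) ∂P‖ ≤ 1 := by
  have := norm_integral_le_of_norm_le_const (μ := P) (f := fun ω => ee (t * X ω)) (C := 1)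
    (Filter.Eventually.of_forall fun ω => (norm_ee _).le)
  simpa using this

end Pool.Agent.K9h10.SM
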