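import Mathlib
import Pool.Agent.K9h10.SM.Ch

set_option autoImplicit false
set_option linter.unusedSectionVars false

/-!
# Almost orthogonal sums
-/

namespace Pool.Agent.K9h10.SM

open MeasureTheory ProbabilityTheory Finset
open Pool.Agent.H534R3.UDist (ee norm_ee)
open scoped ComplexConjugate

variable {Ω : Type*} [MeasurableSpace Ω] {P : Measure Ω} [IsProbabilityMeasure P]

/-- expectation of a product -/
lemma int_prod {X : ℕ → Ω → ℤ} (hX : ∀ i, Measurable (X i)) (hI : iIndepFun X P) (S : Finset ℕ)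
    (f : ℕ → ℤ → ℂ) :
    ∫ ω, ∏ k ∈ S, f k (X k ω) ∂P = ∏ k ∈ S, ∫ ω, f k (X k ω) ∂P := by
  have h := hI.precomp (g := fun i : S => (i : ℕ)) Subtype.val_injective
  have h1 := h.integral_fun_prod_comp (f := fun (i : S) (z : ℤ) => f i z)
    (fun i => (hX i).aemeasurable) (fun i => Measurable.of_discrete.aestronglyMeasurable)
  rw [← Finset.prod_coe_sort S (fun k => ∫ ω, f k (X k ω) ∂P)]
  rw [← h1]
  refine integral_congr_ae (Filter.Eventually.of_forall fun ω => ?_)
  exact (Finset.prod_coe_sort S (fun k => f k (X k ω))).symm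

lemma indep_mul {X : ℕ → Ω → ℤ} (hX : ∀ i, Measurable (X i)) (hI : iIndepFun X P) (S T : Finset ℕ)
    (hST : Disjoint S T) (U : (S → ℤ) → ℂ) (W : (T → ℤ) → ℂ) :
    ∫ ω, U (fun i => X i ω) * W (fun i => X i ω) ∂P =
      (∫ ω, U (fun i => X i ω) ∂P) * ∫ ω, W (fun i => X i ω) ∂P := by
  have h := hI.indepFun_finset S T hST hX
  have h1 := h.integral_fun_comp_mul_comp (f := U) (g := W)
    (measurable_pi_lambda _ fun i : S => hX i).aemeasurable
    (measurable_pi_lambda _ fun i : T => hX i).aemeasurable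
    Measurable.of_discrete.aestronglyMeasurable Measurable.of_discrete.aestronglyMeasurable
  exact h1

/-- the part of the exponential before `n - G` -/
noncomputable def Fz (y : ℕ → ℝ) (c : ℕ → ℕ → ℝ) (n G : ℕ) (z : ℕ → ℤ) : ℂ :=
  ee (y n) * ∏ k ∈ range (n - G), ee (c n k * z k)

/-- the part of the exponential near `n` -/
noncomputable def Vz (c : ℕ → ℕ → ℝ) (n G : ℕ) (z : ℕ → ℤ) : ℂ :=
  ∏ k ∈ Ico (n - G) (n + G), ee (c n k * z k)

/-- the centred exponential -/
noncomputable def Dz (y : ℕ → ℝ) (c : ℕ → ℕ → ℝ) (n G : ℕ) (e : ℂ) (z : ℕ → ℤ) : ℂ :=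
  Fz y c n G z * (Vz c n G z - e)

lemma norm_Fz (y : ℕ → ℝ) (c : ℕ → ℕ → ℝ) (n G : ℕ) (z : ℕ → ℤ) : ‖Fz y c n G z‖ = 1 := by
  unfold Fz
  rw [norm_mul, norm_ee, one_mul, norm_prod]
  exact Finset.prod_eq_one fun i _ => norm_ee _

lemma norm_Vz (c : ℕ → ℕ → ℝ) (n G : ℕ) (z : ℕ → ℤ) : ‖Vz c n G z‖ = 1 := by
  unfold Vz
  rw [norm_prod]
  exact Finset.prod_eq_one fun i _ => norm_ee _

lemma norm_Dz (y : ℕ → ℝ) (c : ℕ → ℕ → ℝ) (n G : ℕ) (e : ℂ) (he : ‖e‖ ≤ 1) (z : ℕ → ℤ) :
    ‖Dz y c n G e z‖ ≤ 2 := by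
  unfold Dz
  rw [norm_mul, norm_Fz, one_mul]
  calc ‖Vz c n G z - e‖ ≤ ‖Vz c n G z‖ + ‖e‖ := norm_sub_le _ _
    _ ≤ 2 := by rw [norm_Vz]; linarith

lemma Fz_congr (y : ℕ → ℝ) (c : ℕ → ℕ → ℝ) (n G : ℕ) {z z' : ℕ → ℤ}
    (h : ∀ k, k < n - G → z k = z' k) : Fz y c n G z = Fz y c n G z' := by
  unfold Fz
  congr 1
  refine Finset.prod_congr rfl fun k hk => ?_
  rw [h k (Finset.mem_range.1 hk)]

lemma Vz_congr (c : ℕ → ℕ → ℝ) (n G : ℕ) {z z' : ℕ → ℤ}
    (h : ∀ k, n - G ≤ k → k < n + G → z k = z' k) : Vz c n G z = Vz c n G z' := by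
  unfold Vz
  refine Finset.prod_congr rfl fun k hk => ?_
  rw [Finset.mem_Ico] at hk
  rw [h k hk.1 hk.2]

lemma Dz_congr (y : ℕ → ℝ) (c : ℕ → ℕ → ℝ) (n G : ℕ) (e : ℂ) {z z' : ℕ → ℤ}
    (h : ∀ k, k < n + G → z k = z' k) : Dz y c n G e z = Dz y c n G e z' := by
  unfold Dz
  rw [Fz_congr y c n G (fun k hk => h k (by omega)), Vz_congr c n G (fun k _ hk => h k hk)]

/-- extension by zero -/
def ext (S : Finset ℕ) (x : S → ℤ) (k : ℕ) : ℤ := if h : k ∈ S then x ⟨k, h⟩ else 0

lemma ext_eq (S : Finset ℕ) (z : ℕ → ℤ) {k : ℕ} (hk : k ∈ S) : ext S (fun i => z i) k = z k := by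
  unfold ext
  rw [dif_pos hk]

lemma meas_z {X : ℕ → Ω → ℤ} (hX : ∀ i, Measurable (X i)) (S : Finset ℕ) (U : (S → ℤ) → ℂ) :
    Measurable fun ω => U (fun i => X i ω) :=
  (Measurable.of_discrete (f := U)).comp (measurable_pi_lambda _ fun i => hX i)

lemma meas_Vz {X : ℕ → Ω → ℤ} (hX : ∀ i, Measurable (X i)) (c : ℕ → ℕ → ℝ) (n G : ℕ) :
    Measurable fun ω => Vz c n G (fun k => X k ω) := by
  have h := meas_z hX (Ico (n - G) (n + G)) (fun x => Vz c n G (ext _ x))
  have e1 : (fun ω => Vz c n G (ext (Ico (n - G) (n + G)) fun i => X i ω)) =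
      fun ω => Vz c n G (fun k => X k ω) := by
    funext ω
    exact Vz_congr c n G fun k h1 h2 => ext_eq _ (fun k => X k ω) (Finset.mem_Ico.2 ⟨h1, h2⟩)
  rwa [e1] at h

lemma meas_Dz {X : ℕ → Ω → ℤ} (hX : ∀ i, Measurable (X i)) (y : ℕ → ℝ) (c : ℕ → ℕ → ℝ) (n G : ℕ)
    (e : ℂ) : Measurable fun ω => Dz y c n G e (fun k => X k ω) := by
  have h := meas_z hX (range (n + G)) (fun x => Dz y c n G e (ext _ x))
  have e1 : (fun ω => Dz y c n G e (ext (range (n + G)) fun i => X i ω)) =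
      fun ω => Dz y c n G e (fun k => X k ω) := by
    funext ω
    exact Dz_congr y c n G e fun k h1 => ext_eq _ (fun k => X k ω) (Finset.mem_range.2 h1)
  rwa [e1] at h

/-- orthogonality -/
lemma orth {X : ℕ → Ω → ℤ} (hX : ∀ i, Measurable (X i)) (hI : iIndepFun X P) (y : ℕ → ℝ)
    (c : ℕ → ℕ → ℝ) (G : ℕ) (e : ℕ → ℂ) (he : ∀ n, e n = ∫ ω, Vz c n G (fun k => X k ω) ∂P)
    {m n : ℕ} (hmn : m + 2 * G ≤ n) :
    ∫ ω, Dz y c n G (e n) (fun k => X k ω) * conj (Dz y c m G (e m) (fun k => X k ω)) ∂P = 0 := by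
  set S := range (n - G) with hS
  set T := Ico (n - G) (n + G) with hT
  have hST : Disjoint S T := by
    rw [Finset.disjoint_left]
    intro k h1 h2
    rw [hS, Finset.mem_range] at h1
    rw [hT, Finset.mem_Ico] at h2
    omega
  have h := indep_mul hX hI S T hST
    (fun x => Fz y c n G (ext S x) * conj (Dz y c m G (e m) (ext S x)))
    (fun x => Vz c n G (ext T x) - e n)
  have e1 : ∀ ω, Dz y c n G (e n) (fun k => X k ω) * conj (Dz y c m G (e m) (fun k => X k ω)) =
      (Fz y c n G (ext S (fun i => X i ω)) * conj (Dz y c m G (e m) (ext S (fun i => X i ω)))) *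
        (Vz c n G (ext T (fun i => X i ω)) - e n) := by
    intro ω
    have a1 : Fz y c n G (ext S (fun i => X i ω)) = Fz y c n G (fun k => X k ω) :=
      Fz_congr y c n G fun k hk => ext_eq S (fun k => X k ω) (Finset.mem_range.2 hk)
    have a2 : Vz c n G (ext T (fun i => X i ω)) = Vz c n G (fun k => X k ω) :=
      Vz_congr c n G fun k h1 h2 => ext_eq T (fun k => X k ω) (Finset.mem_Ico.2 ⟨h1, h2⟩)
    have a3 : Dz y c m G (e m) (ext S (fun i => X i ω)) = Dz y c m G (e m) (fun k => X k ω) :=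
      Dz_congr y c m G (e m) fun k hk => ext_eq S (fun k => X k ω) (Finset.mem_range.2 (by omega))
    rw [a1, a2, a3]
    conv_lhs => rw [Dz]
    ring
  simp_rw [e1]
  rw [h]
  have e2 : ∫ ω, (Vz c n G (ext T (fun i => X i ω)) - e n) ∂P = 0 := by
    have a2 : ∀ ω, Vz c n G (ext T (fun i => X i ω)) = Vz c n G (fun k => X k ω) := fun ω =>
      Vz_congr c n G fun k h1 h2 => ext_eq T (fun k => X k ω) (Finset.mem_Ico.2 ⟨h1, h2⟩)
    simp_rw [a2]
    rw [integral_sub _ (integrable_const _), ← he n, integral_const, probReal_univ, one_smul, sub_self]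
    exact Integrable.of_bound (meas_Vz hX c n G).aestronglyMeasurable 1
      (Filter.Eventually.of_forall fun ω => (norm_Vz _ _ _ _).le)
  rw [e2, mul_zero]

/-- the second moment -/
lemma second_moment {X : ℕ → Ω → ℤ} (hX : ∀ i, Measurable (X i)) (hI : iIndepFun X P) (y : ℕ → ℝ)
    (c : ℕ → ℕ → ℝ) (G : ℕ) (e : ℕ → ℂ) (he : ∀ n, e n = ∫ ω, Vz c n G (fun k => X k ω) ∂P)
    (N : ℕ) :
    ∫ ω, ‖∑ n ∈ range N, Dz y c n G (e n) (fun k => X k ω)‖ ^ 2 ∂P ≤ 16 * G * N := by
  have he1 : ∀ n, ‖e n‖ ≤ 1 := by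
    intro n
    rw [he n]
    have := norm_integral_le_of_norm_le_const (μ := P) (f := fun ω => Vz c n G (fun k => X k ω))
      (C := 1) (Filter.Eventually.of_forall fun ω => (norm_Vz _ _ _ _).le)
    simpa using this
  set D : ℕ → Ω → ℂ := fun n ω => Dz y c n G (e n) (fun k => X k ω) with hD
  have hDm : ∀ n, Measurable (D n) := fun n => meas_Dz hX y c n G (e n)
  have hDn : ∀ n ω, ‖D n ω‖ ≤ 2 := fun n ω => norm_Dz y c n G (e n) (he1 n) _
  have e1 : ∀ ω, ‖∑ n ∈ range N, D n ω‖ ^ 2 =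
      ∑ n ∈ range N, ∑ m ∈ range N, (D n ω * conj (D m ω)).re := by
    intro ω
    have : ((‖∑ n ∈ range N, D n ω‖ ^ 2 : ℝ) : ℂ) =
        ∑ n ∈ range N, ∑ m ∈ range N, (D n ω * conj (D m ω)) := by
      rw [← Finset.sum_mul_sum, ← map_sum, Complex.mul_conj, Complex.normSq_eq_norm_sq]
    have h2 := congrArg Complex.re this
    rw [Complex.ofReal_re] at h2
    rw [h2, Complex.re_sum]
    exact Finset.sum_congr rfl fun n _ => Complex.re_sum _ _
  have hint : ∀ n m, Integrable (fun ω => D n ω * conj (D m ω)) P := fun n m =>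
    Integrable.of_bound ((hDm n).mul (Complex.continuous_conj.measurable.comp (hDm m))).aestronglyMeasurable 4
      (Filter.Eventually.of_forall fun ω => by
        rw [norm_mul, RCLike.norm_conj]
        have := hDn n ω
        have := hDn m ω
        nlinarith [norm_nonneg (D n ω), norm_nonneg (D m ω)])
  have hre : ∀ n m, ∫ ω, (D n ω * conj (D m ω)).re ∂P = (∫ ω, D n ω * conj (D m ω) ∂P).re :=
    fun n m => integral_re (hint n m)
  have hbd : ∀ n m, ∫ ω, (D n ω * conj (D m ω)).re ∂P ≤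
      if n < m + 2 * G ∧ m < n + 2 * G then 4 else 0 := by
    intro n m
    split_ifs with h
    · rw [hre]
      refine (Complex.re_le_norm _).trans ?_
      have := norm_integral_le_of_norm_le_const (μ := P) (f := fun ω => D n ω * conj (D m ω))
        (C := 4) (Filter.Eventually.of_forall fun ω => by
          rw [norm_mul, RCLike.norm_conj]
          have := hDn n ω
          have := hDn m ω
          nlinarith [norm_nonneg (D n ω), norm_nonneg (D m ω)])
      simpa using this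
    · rw [not_and_or, not_lt, not_lt] at h
      rcases h with h | h
      · rw [hre, orth hX hI y c G e he h, Complex.zero_re]
      · have h2 : ∀ ω, (D n ω * conj (D m ω)).re = (D m ω * conj (D n ω)).re := by
          intro ω
          rw [← Complex.conj_re, map_mul, Complex.conj_conj, mul_comm]
        simp_rw [h2]
        rw [hre, orth hX hI y c G e he h, Complex.zero_re]
  change ∫ ω, ‖∑ n ∈ range N, D n ω‖ ^ 2 ∂P ≤ _
  simp_rw [e1]
  have hint2 : ∀ n m, Integrable (fun ω => (D n ω * conj (D m ω)).re) P := fun n m => (hint n m).re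
  rw [integral_finsetSum _ fun n _ => integrable_finsetSum _ fun m _ => hint2 n m]
  rw [Finset.sum_congr rfl fun n _ => integral_finsetSum (range N) fun m _ => hint2 n m]
  calc ∑ n ∈ range N, ∑ m ∈ range N, ∫ ω, (D n ω * conj (D m ω)).re ∂P
      ≤ ∑ n ∈ range N, ∑ m ∈ range N, if n < m + 2 * G ∧ m < n + 2 * G then (4 : ℝ) else 0 :=
        Finset.sum_le_sum fun n _ => Finset.sum_le_sum fun m _ => hbd n m
    _ ≤ ∑ _n ∈ range N, (16 * G : ℝ) := by
        refine Finset.sum_le_sum fun n _ => ?_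
        rw [← Finset.sum_filter, Finset.sum_const, nsmul_eq_mul]
        have h1 : ((range N).filter fun m => n < m + 2 * G ∧ m < n + 2 * G).card ≤ 4 * G := by
          calc ((range N).filter fun m => n < m + 2 * G ∧ m < n + 2 * G).card
              ≤ (Ico (n + 1 - 2 * G) (n + 2 * G)).card := by
                refine Finset.card_le_card fun m hm => ?_
                rw [Finset.mem_filter] at hm
                rw [Finset.mem_Ico]
                omega
            _ ≤ 4 * G := by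
                rw [Nat.card_Ico]
                omega
        have h2 : (((range N).filter fun m => n < m + 2 * G ∧ m < n + 2 * G).card : ℝ) ≤ 4 * G := by
          exact_mod_cast h1
        linarith
    _ = 16 * G * N := by
        rw [Finset.sum_const, Finset.card_range, nsmul_eq_mul]
        ring

end Pool.Agent.K9h10.SM
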