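import Mathlib
import Pool.Agent.K9h10.SM.Ind

set_option autoImplicit false
set_option linter.unusedSectionVars false

/-!
# Almost sure convergence
-/

namespace Pool.Agent.K9h10.SM

open MeasureTheory ProbabilityTheory Finset Filter Topology
open Pool.Agent.H534R3.UDist (ee norm_ee)

variable {Ω : Type*} [MeasurableSpace Ω] {P : Measure Ω} [IsProbabilityMeasure P]

lemma ae_tendsto {Z : ℕ → Ω → ℂ} (hZ : ∀ k, Measurable (Z k)) (C : ℕ → ℝ) (hC : ∀ k ω, ‖Z k ω‖ ≤ C k)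
    (a : ℕ → ℝ) (ha : Summable a) (h : ∀ k, ∫ ω, ‖Z k ω‖ ^ 2 ∂P ≤ a k) :
    ∀ᵐ ω ∂P, Tendsto (fun k => Z k ω) atTop (𝓝 0) := by
  have hint : ∀ k, Integrable (fun ω => ‖Z k ω‖ ^ 2) P := fun k =>
    Integrable.of_bound ((hZ k).norm.pow_const 2).aestronglyMeasurable (C k ^ 2)
      (Eventually.of_forall fun ω => by
        rw [Real.norm_eq_abs, abs_of_nonneg (by positivity)]
        exact pow_le_pow_left₀ (norm_nonneg _) (hC k ω) 2)
  have h1 : ∫⁻ ω, ∑' k, ENNReal.ofReal (‖Z k ω‖ ^ 2) ∂P ≠ ⊤ := by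
    rw [lintegral_tsum fun k => ((hZ k).norm.pow_const 2).ennreal_ofReal.aemeasurable]
    have h2 : ∀ k, ∫⁻ ω, ENNReal.ofReal (‖Z k ω‖ ^ 2) ∂P ≤ ENNReal.ofReal (a k) := by
      intro k
      rw [← ofReal_integral_eq_lintegral_ofReal (hint k) (Eventually.of_forall fun ω => by positivity)]
      exact ENNReal.ofReal_le_ofReal (h k)
    refine ne_top_of_le_ne_top ?_ (ENNReal.tsum_le_tsum h2)
    have ha0 : ∀ k, 0 ≤ a k := fun k => (integral_nonneg fun ω => by positivity).trans (h k)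
    rw [← ENNReal.ofReal_tsum_of_nonneg ha0 ha]
    exact ENNReal.ofReal_ne_top
  have h3 := ae_lt_top' (Measurable.tsum fun k =>
    ((hZ k).norm.pow_const 2).ennreal_ofReal).aemeasurable h1
  filter_upwards [h3] with ω hω
  have h4 := ENNReal.tendsto_atTop_zero_of_tsum_ne_top hω.ne
  have h5 := (ENNReal.tendsto_toReal ENNReal.zero_ne_top).comp h4
  have h6 : Tendsto (fun k => ‖Z k ω‖ ^ 2) atTop (𝓝 0) := by
    refine h5.congr fun k => ?_
    simp only [Function.comp_apply]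
    rw [ENNReal.toReal_ofReal (by positivity)]
  rw [tendsto_zero_iff_norm_tendsto_zero]
  have h7 := h6.sqrt
  rw [Real.sqrt_zero] at h7
  refine h7.congr fun k => ?_
  rw [Real.sqrt_sq (norm_nonneg _)]

/-- from the lengths `k ^ 4` to all lengths -/
lemma interp (u : ℕ → ℂ) (hu : ∀ n, ‖u n‖ ≤ 1)
    (h : Tendsto (fun k : ℕ => ‖∑ n ∈ range (k ^ 4), u n‖ / (k : ℝ) ^ 4) atTop (𝓝 0)) :
    Tendsto (fun N : ℕ => ‖∑ n ∈ range N, u n‖ / (N : ℝ)) atTop (𝓝 0) := by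
  set r : ℕ → ℕ := fun N => Nat.sqrt (Nat.sqrt N) with hr
  have hr1 : ∀ N, r N ^ 4 ≤ N := by
    intro N
    have h1 := Nat.sqrt_le' N
    have h2 := Nat.sqrt_le' (Nat.sqrt N)
    calc r N ^ 4 = (r N ^ 2) ^ 2 := by ring
      _ ≤ (Nat.sqrt N) ^ 2 := Nat.pow_le_pow_left h2 2
      _ ≤ N := h1
  have hr2 : ∀ N, N < (r N + 1) ^ 4 := by
    intro N
    have h1 := Nat.lt_succ_sqrt' N
    have h2 := Nat.lt_succ_sqrt' (Nat.sqrt N)
    calc N < (Nat.sqrt N + 1) ^ 2 := h1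
      _ ≤ ((r N + 1) ^ 2) ^ 2 := Nat.pow_le_pow_left (Nat.succ_le_of_lt h2) 2
      _ = (r N + 1) ^ 4 := by ring
  have hrt : Tendsto r atTop atTop := by
    rw [tendsto_atTop]
    intro B
    filter_upwards [eventually_ge_atTop ((B + 1) ^ 4)] with N hN
    by_contra hcon
    push Not at hcon
    have := hr2 N
    have h3 : (r N + 1) ^ 4 ≤ (B + 1) ^ 4 := Nat.pow_le_pow_left (by omega) 4
    omega
  have h1 := h.comp hrt
  have h2 : Tendsto (fun k : ℕ => ((k : ℝ) + 1) ^ 4 / (k : ℝ) ^ 4 - 1) atTop (𝓝 0) := by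
    have h3 : Tendsto (fun k : ℕ => (1 + 1 / (k : ℝ)) ^ 4 - 1) atTop (𝓝 ((1 + 0) ^ 4 - 1)) :=
      ((tendsto_const_nhds.add tendsto_one_div_atTop_nhds_zero_nat).pow 4).sub tendsto_const_nhds
    norm_num at h3
    refine h3.congr' ?_
    filter_upwards [eventually_gt_atTop 0] with k hk
    have hk0 : (k : ℝ) ≠ 0 := by exact_mod_cast hk.ne'
    rw [← div_pow]
    congr 2
    field_simp
  have h3 := h2.comp hrt
  have h4 := h1.add h3
  rw [add_zero] at h4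
  refine squeeze_zero' (Eventually.of_forall fun N => by positivity) ?_ h4
  filter_upwards [hrt.eventually_gt_atTop 0, eventually_gt_atTop 0] with N hN hN0
  simp only [Function.comp_apply]
  have hk0 : (0 : ℝ) < (r N : ℝ) ^ 4 := by positivity
  have hNR : (0 : ℝ) < N := by exact_mod_cast hN0
  have h5 : ‖∑ n ∈ range N, u n‖ ≤ ‖∑ n ∈ range (r N ^ 4), u n‖ + (((r N : ℝ) + 1) ^ 4 - (r N : ℝ) ^ 4) := by
    rw [← Finset.sum_range_add_sum_Ico u (hr1 N)]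
    refine (norm_add_le _ _).trans ?_
    gcongr
    calc ‖∑ n ∈ Ico (r N ^ 4) N, u n‖ ≤ ∑ n ∈ Ico (r N ^ 4) N, ‖u n‖ := norm_sum_le _ _
      _ ≤ ∑ _n ∈ Ico (r N ^ 4) N, (1 : ℝ) := Finset.sum_le_sum fun n _ => hu n
      _ = (N - r N ^ 4 : ℕ) := by rw [Finset.sum_const, Nat.card_Ico, nsmul_eq_mul, mul_one]
      _ ≤ ((r N : ℝ) + 1) ^ 4 - (r N : ℝ) ^ 4 := by
        rw [Nat.cast_sub (hr1 N)]
        have : (N : ℝ) ≤ ((r N : ℝ) + 1) ^ 4 := by exact_mod_cast (hr2 N).le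
        push_cast
        linarith
  have h6 : (r N : ℝ) ^ 4 ≤ N := by exact_mod_cast hr1 N
  have h7 : (0 : ℝ) ≤ ‖∑ n ∈ range (r N ^ 4), u n‖ + (((r N : ℝ) + 1) ^ 4 - (r N : ℝ) ^ 4) := by
    have : (r N : ℝ) ^ 4 ≤ ((r N : ℝ) + 1) ^ 4 := by gcongr; linarith
    have := norm_nonneg (∑ n ∈ range (r N ^ 4), u n)
    linarith
  calc ‖∑ n ∈ range N, u n‖ / N
      ≤ (‖∑ n ∈ range (r N ^ 4), u n‖ + (((r N : ℝ) + 1) ^ 4 - (r N : ℝ) ^ 4)) / N :=
        div_le_div_of_nonneg_right h5 hNR.le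
    _ ≤ (‖∑ n ∈ range (r N ^ 4), u n‖ + (((r N : ℝ) + 1) ^ 4 - (r N : ℝ) ^ 4)) / (r N : ℝ) ^ 4 :=
        div_le_div_of_nonneg_left h7 hk0 h6
    _ = _ := by
        field_simp

/-- the tail of the series -/
lemma tail {b : ℕ} (hb : 2 ≤ b) (z : ℕ → ℤ) (K : ℝ) (hz : ∀ i, |(z i : ℝ)| ≤ K) :
    Summable (fun i => (z i : ℝ) / (b : ℝ) ^ i) ∧
    ∀ m, |(∑' i, (z i : ℝ) / (b : ℝ) ^ i) - ∑ i ∈ range m, (z i : ℝ) / (b : ℝ) ^ i| ≤
      2 * K / (b : ℝ) ^ m := by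
  have hb2 : (2 : ℝ) ≤ b := by exact_mod_cast hb
  have hb0 : (0 : ℝ) < b := by linarith
  have hK : 0 ≤ K := (abs_nonneg _).trans (hz 0)
  have hgeo : Summable fun i : ℕ => K * (1 / (b : ℝ)) ^ i :=
    (summable_geometric_of_lt_one (by positivity) (by rw [div_lt_one hb0]; linarith)).mul_left K
  have hle : ∀ i, ‖(z i : ℝ) / (b : ℝ) ^ i‖ ≤ K * (1 / (b : ℝ)) ^ i := by
    intro i
    rw [norm_div, norm_pow, Real.norm_eq_abs, Real.norm_eq_abs, abs_of_pos hb0, one_div, inv_pow,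
      ← div_eq_mul_inv]
    exact div_le_div_of_nonneg_right (hz i) (by positivity)
  have hs : Summable (fun i => (z i : ℝ) / (b : ℝ) ^ i) := Summable.of_norm_bounded hgeo hle
  refine ⟨hs, fun m => ?_⟩
  have h1 := hs.sum_add_tsum_nat_add m
  rw [← h1, add_sub_cancel_left]
  have hgeo2 : Summable fun i : ℕ => K * (1 / (b : ℝ)) ^ (i + m) := (summable_nat_add_iff m).2 hgeo
  have h2 : ‖∑' i, (z (i + m) : ℝ) / (b : ℝ) ^ (i + m)‖ ≤ ∑' i, K * (1 / (b : ℝ)) ^ (i + m) :=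
    tsum_of_norm_bounded hgeo2.hasSum fun i => hle (i + m)
  rw [Real.norm_eq_abs] at h2
  refine h2.trans ?_
  have h3 : ∑' i, K * (1 / (b : ℝ)) ^ (i + m) = K * (1 / (b : ℝ)) ^ m * (1 - 1 / (b : ℝ))⁻¹ := by
    have : ∀ i : ℕ, K * (1 / (b : ℝ)) ^ (i + m) = K * (1 / (b : ℝ)) ^ m * (1 / (b : ℝ)) ^ i := by
      intro i
      rw [pow_add]
      ring
    simp_rw [this]
    rw [tsum_mul_left, tsum_geometric_of_lt_one (by positivity) (by rw [div_lt_one hb0]; linarith)]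
  rw [h3]
  have h4 : (1 - 1 / (b : ℝ))⁻¹ ≤ 2 := by
    rw [inv_le_comm₀ _ two_pos]
    · have : 1 / (b : ℝ) ≤ 1 / 2 := one_div_le_one_div_of_le two_pos hb2
      linarith
    · have : 1 / (b : ℝ) ≤ 1 / 2 := one_div_le_one_div_of_le two_pos hb2
      linarith
  calc K * (1 / (b : ℝ)) ^ m * (1 - 1 / (b : ℝ))⁻¹ ≤ K * (1 / (b : ℝ)) ^ m * 2 :=
        mul_le_mul_of_nonneg_left h4 (by positivity)
    _ = 2 * K / (b : ℝ) ^ m := by
        rw [one_div, inv_pow]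
        ring

end Pool.Agent.K9h10.SM
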