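import Mathlib
import Pool.Agent.K9h10.SM.BC

set_option autoImplicit false
set_option linter.unusedSectionVars false

/-!
# The bound for the conditional expectations
-/

namespace Pool.Agent.K9h10.SM

open MeasureTheory ProbabilityTheory Finset Filter Topology
open Pool.Agent.H534R3.UDist (ee norm_ee)

variable {Ω : Type*} [MeasurableSpace Ω] {P : Measure Ω} [IsProbabilityMeasure P]

/-- the coefficients -/
noncomputable def cf (b : ℕ) (β : ℝ) (n k : ℕ) : ℝ := β * (b : ℝ) ^ n / (b : ℝ) ^ k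

lemma cf_sub {b : ℕ} (hb : 2 ≤ b) (β : ℝ) {n j : ℕ} (h : j ≤ n) :
    cf b β n (n - j) = (b : ℝ) ^ j * β := by
  have hb0 : (b : ℝ) ≠ 0 := by
    have : (0 : ℝ) < b := by exact_mod_cast (by omega : 0 < b)
    exact this.ne'
  unfold cf
  obtain ⟨m, rfl⟩ := Nat.exists_eq_add_of_le h
  rw [Nat.add_sub_cancel_left, pow_add]
  field_simp

/-- the expectation of `Vz` is small -/
lemma e_small {b : ℕ} (hb : 2 ≤ b) (β : ℝ) {X : ℕ → Ω → ℤ} (hX : ∀ i, Measurable (X i))
    (hI : iIndepFun X P) (a a' : ℕ → ℤ) (haa : ∀ i, a i ≠ a' i) (T : ℕ) (hT : 0 < T)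
    (haT : ∀ i, (a' i - a i) ∣ (T : ℤ)) (v : ℕ → ℝ) (hv0 : ∀ i, 0 ≤ v i)
    (hv : ∀ i, v i ≤ P.real {ω | X i ω = a i} * P.real {ω | X i ω = a' i})
    (A : ℕ) (J : ℕ → ℕ) (hA : 2 ≤ A) (hJ : ∀ k, A ^ k ≤ J k ∧ J k < A ^ (k + 1) ∧
      1 / (2 * (b : ℝ)) ≤ nd ((b : ℝ) ^ J k * (T * β))) (n G κ : ℕ) (hG : A ^ κ ≤ G) (hn : G ≤ n)
    (w : ℝ) (hw : ∀ i, n - G < i → i ≤ n → w ≤ v i) :
    ‖∫ ω, Vz (cf b β) n G (fun k => X k ω) ∂P‖ ≤
      Real.exp (-(2 / ((b : ℝ) * T) ^ 2 * (κ * w))) := by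
  have hb0 : (0 : ℝ) < b := by exact_mod_cast (by omega : 0 < b)
  have hT0 : (0 : ℝ) < T := by exact_mod_cast hT
  unfold Vz
  rw [int_prod hX hI _ (fun k z => ee (cf b β n k * z)), norm_prod]
  have hmono : StrictMono J := by
    refine strictMono_nat_of_lt_succ fun k => ?_
    exact lt_of_lt_of_le (hJ k).2.1 (hJ (k + 1)).1
  have hJlt : ∀ k ∈ range κ, J k < G := by
    intro k hk
    rw [Finset.mem_range] at hk
    calc J k < A ^ (k + 1) := (hJ k).2.1
      _ ≤ A ^ κ := Nat.pow_le_pow_right (by omega) hk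
      _ ≤ G := hG
  have hJpos : ∀ k, 1 ≤ J k := fun k => (Nat.one_le_pow _ _ (by omega)).trans (hJ k).1
  set S : Finset ℕ := (range κ).image fun k => n - J k with hS
  have hinj : Set.InjOn (fun k => n - J k) (range κ : Finset ℕ) := by
    intro k hk l hl hkl
    simp only at hkl
    have h1 := hJlt k (by simpa using hk)
    have h2 := hJlt l (by simpa using hl)
    exact hmono.injective (by omega)
  have hsub : S ⊆ Ico (n - G) (n + G) := by
    intro i hi
    rw [hS, Finset.mem_image] at hi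
    obtain ⟨k, hk, rfl⟩ := hi
    have h1 := hJlt k hk
    rw [Finset.mem_Ico]
    omega
  calc ∏ k ∈ Ico (n - G) (n + G), ‖∫ ω, ee (cf b β n k * X k ω) ∂P‖
      ≤ ∏ k ∈ S, ‖∫ ω, ee (cf b β n k * X k ω) ∂P‖ := by
        exact Finset.prod_le_prod_of_subset_of_le_one hsub (fun i _ => norm_nonneg _)
          fun i _ _ => char_le_one _
    _ = ∏ k ∈ range κ, ‖∫ ω, ee (cf b β n (n - J k) * X (n - J k) ω) ∂P‖ := by
        rw [hS, Finset.prod_image hinj]
    _ ≤ ∏ _k ∈ range κ, Real.exp (-(2 / ((b : ℝ) * T) ^ 2 * w)) := by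
        refine Finset.prod_le_prod (fun i _ => norm_nonneg _) fun k hk => ?_
        have h1 := hJlt k hk
        have h0 : 1 / (2 * ((b : ℝ) * T)) ≤
            nd (cf b β n (n - J k) * (a' (n - J k) - a (n - J k))) := by
          rw [cf_sub hb β (by omega)]
          obtain ⟨s, hs⟩ := haT (n - J k)
          set d : ℤ := a' (n - J k) - a (n - J k) with hd
          have hdR : ((a' (n - J k) : ℝ) - a (n - J k)) = d := by
            rw [hd]
            push_cast
            ring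
          rw [hdR]
          have hd0 : d ≠ 0 := by
            have := haa (n - J k)
            omega
          have hTR : (T : ℝ) = d * s := by exact_mod_cast hs
          have hs1 : |(s : ℝ)| ≤ T := by
            have h5 : |(T : ℝ)| = |(d : ℝ)| * |(s : ℝ)| := by rw [hTR, abs_mul]
            rw [abs_of_pos hT0] at h5
            have h6 : (1 : ℝ) ≤ |(d : ℝ)| := by exact_mod_cast Int.one_le_abs hd0
            nlinarith [abs_nonneg (s : ℝ)]
          have h4 := nd_int_mul s ((b : ℝ) ^ J k * β * d)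
          have e4 : (s : ℝ) * ((b : ℝ) ^ J k * β * d) = (b : ℝ) ^ J k * (T * β) := by
            rw [hTR]
            ring
          rw [e4] at h4
          have h7 := (hJ k).2.2.trans h4
          have h8 : 1 / (2 * (b : ℝ)) ≤ T * nd ((b : ℝ) ^ J k * β * d) :=
            h7.trans (mul_le_mul_of_nonneg_right hs1 (nd_nonneg _))
          have e8 : 1 / (2 * ((b : ℝ) * T)) = 1 / (2 * (b : ℝ)) / T := by
            field_simp
          rw [e8, div_le_iff₀ hT0]
          linarith
        have h2 := char_le' (P := P) (hX (n - J k)) (haa (n - J k)) (cf b β n (n - J k))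
          (v (n - J k)) (1 / (2 * ((b : ℝ) * T))) (by positivity) h0 (hv _) (hv0 _)
        refine h2.trans (Real.exp_le_exp.2 (neg_le_neg ?_))
        have h3 := hw (n - J k) (by omega) (by omega)
        have e1 : 8 * (1 / (2 * ((b : ℝ) * T))) ^ 2 = 2 / ((b : ℝ) * T) ^ 2 := by
          field_simp
          norm_num
        rw [e1]
        exact mul_le_mul_of_nonneg_left h3 (by positivity)
    _ = Real.exp (-(2 / ((b : ℝ) * T) ^ 2 * (κ * w))) := by
        rw [Finset.prod_const, Finset.card_range, ← Real.exp_nat_mul]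
        congr 1
        ring

/-- uniform smallness for `k ^ 2 ≤ n < k ^ 4`, `G = k` -/
lemma e_small' {b : ℕ} (hb : 2 ≤ b) {α : ℝ} (hα : Irrational α) (hL : ¬ Liouville α) {h : ℤ}
    (hh : h ≠ 0) {X : ℕ → Ω → ℤ} (hX : ∀ i, Measurable (X i)) (hI : iIndepFun X P)
    (a a' : ℕ → ℤ) (haa : ∀ i, a i ≠ a' i) (T : ℕ) (hT : 0 < T)
    (haT : ∀ i, (a' i - a i) ∣ (T : ℤ))
    (hv : Tendsto (fun i : ℕ => P.real {ω | X i ω = a i} * P.real {ω | X i ω = a' i} *
      Real.log i) atTop atTop) (ε : ℝ) (hε : 0 < ε) :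
    ∀ᶠ k : ℕ in atTop, ∀ n, k ^ 2 ≤ n → n < k ^ 4 →
      ‖∫ ω, Vz (cf b (h * α)) n k (fun k => X k ω) ∂P‖ ≤ ε := by
  have hb0 : (0 : ℝ) < b := by exact_mod_cast (by omega : 0 < b)
  have hT0 : (0 : ℝ) < T := by exact_mod_cast hT
  have hhT : (T : ℤ) * h ≠ 0 := mul_ne_zero (by omega) hh
  obtain ⟨m, D, hmD⟩ := exists_nD hb hα hL hhT
  obtain ⟨A, J, hA, hJ⟩ := exists_seq hb _ m D hmD
  have hJ' : ∀ k, A ^ k ≤ J k ∧ J k < A ^ (k + 1) ∧
      1 / (2 * (b : ℝ)) ≤ nd ((b : ℝ) ^ J k * (T * (h * α))) := by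
    intro k
    obtain ⟨h1, h2, h3⟩ := hJ k
    refine ⟨h1, h2, ?_⟩
    have e : ((((T : ℤ) * h : ℤ) : ℝ) * α) = T * (h * α) := by
      push_cast
      ring
    rwa [e] at h3
  have hlA : 0 < Real.log A := Real.log_pos (by exact_mod_cast (by omega : 1 < A))
  obtain ⟨M, hM0, hM⟩ : ∃ M : ℝ, 0 ≤ M ∧
      Real.exp (-(2 / ((b : ℝ) * T) ^ 2 * (M / (8 * Real.log A)))) ≤ ε := by
    refine ⟨max 0 (-Real.log ε * (((b : ℝ) * T) ^ 2 / 2) * (8 * Real.log A)), le_max_left _ _, ?_⟩
    rw [← Real.le_log_iff_exp_le hε, neg_le]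
    have h1 : -Real.log ε = 2 / ((b : ℝ) * T) ^ 2 *
        ((-Real.log ε * (((b : ℝ) * T) ^ 2 / 2) * (8 * Real.log A)) / (8 * Real.log A)) := by
      field_simp
    calc -Real.log ε = 2 / ((b : ℝ) * T) ^ 2 *
          ((-Real.log ε * (((b : ℝ) * T) ^ 2 / 2) * (8 * Real.log A)) / (8 * Real.log A)) := h1
      _ ≤ _ := by
        refine mul_le_mul_of_nonneg_left ?_ (by positivity)
        exact div_le_div_of_nonneg_right (le_max_right _ _) (by positivity)
  obtain ⟨i0, hi0⟩ := eventually_atTop.1 (hv.eventually_ge_atTop M)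
  filter_upwards [eventually_ge_atTop (i0 + 3), eventually_ge_atTop (A ^ 2)] with k hk1 hk2 n hn1 hn2
  have hk3 : 3 ≤ k := by omega
  have hkn : k + i0 ≤ n := by
    have h1 : k + i0 ≤ k * k := by nlinarith
    have h2 : k * k = k ^ 2 := by ring
    omega
  have hkR : (3 : ℝ) ≤ k := by exact_mod_cast hk3
  have hlk : 1 < Real.log k := by
    have h1 : Real.exp 1 < k := by
      have := Real.exp_one_lt_d9
      linarith
    exact (Real.lt_log_iff_exp_lt (by linarith)).2 h1
  have hlk0 : 0 < Real.log k := by linarith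
  have hnR : (3 : ℝ) ≤ n := by
    have : 3 ≤ n := by omega
    exact_mod_cast this
  have hln0 : 0 < Real.log n := Real.log_pos (by linarith)
  have hln : Real.log n ≤ 4 * Real.log k := by
    have h1 : (n : ℝ) ≤ (k : ℝ) ^ 4 := by exact_mod_cast hn2.le
    have h2 := Real.log_le_log (by linarith) h1
    rw [Real.log_pow] at h2
    exact_mod_cast h2
  set w : ℝ := M / Real.log n with hw
  have hw0 : 0 ≤ w := div_nonneg hM0 hln0.le
  have h1 := e_small hb (h * α) hX hI a a' haa T hT haT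
    (fun i => P.real {ω | X i ω = a i} * P.real {ω | X i ω = a' i})
    (fun i => mul_nonneg measureReal_nonneg measureReal_nonneg) (fun i => le_rfl) A J hA hJ' n k
    (Nat.log A k) (Nat.pow_log_le_self A (by omega)) (by omega) w (by
      intro i hi1 hi2
      have hi3 : i0 ≤ i := by omega
      have hi4 : 3 < i + 1 ∨ i ≤ 2 := by omega
      have hi5 : 1 ≤ i := by omega
      have h2 := hi0 i hi3
      have hiR : (i : ℝ) ≤ n := by exact_mod_cast hi2
      have hi1R : (1 : ℝ) ≤ i := by exact_mod_cast hi5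
      have h3 : Real.log i ≤ Real.log n := Real.log_le_log (by linarith) hiR
      rw [hw, div_le_iff₀ hln0]
      refine h2.trans ?_
      exact mul_le_mul_of_nonneg_left h3 (mul_nonneg measureReal_nonneg measureReal_nonneg))
  refine h1.trans (le_trans (Real.exp_le_exp.2 (neg_le_neg ?_)) hM)
  refine mul_le_mul_of_nonneg_left ?_ (by positivity)
  -- `M / (8 log A) ≤ log_A k * M / log n`
  have h2 : Real.log k / (2 * Real.log A) ≤ Nat.log A k := by
    have h3 : k < A ^ (Nat.log A k + 1) := Nat.lt_pow_succ_log_self (by omega) k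
    have h4 : (k : ℝ) < (A : ℝ) ^ (Nat.log A k + 1) := by exact_mod_cast h3
    have h5 := Real.log_lt_log (by linarith) h4
    rw [Real.log_pow] at h5
    push_cast at h5
    have h6 : 2 * Real.log A ≤ Real.log k := by
      have h7 : ((A : ℝ)) ^ 2 ≤ k := by exact_mod_cast hk2
      have h8 := Real.log_le_log (by positivity) h7
      rw [Real.log_pow] at h8
      exact_mod_cast h8
    rw [div_le_iff₀ (by positivity)]
    nlinarith
  calc M / (8 * Real.log A) = Real.log k / (2 * Real.log A) * (M / (4 * Real.log k)) := by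
        field_simp
        ring
    _ ≤ Nat.log A k * w := by
        refine mul_le_mul h2 ?_ (by positivity) (Nat.cast_nonneg _)
        exact div_le_div_of_nonneg_left hM0 hln0 hln

end Pool.Agent.K9h10.SM
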