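import Mathlib
import Pool.Agent.H534R3.UD

set_option autoImplicit false

/-!
# Normality from uniform distribution
-/

namespace Pool.Agent.K9h10.SM

open Filter Topology Finset
open Pool.Agent.H534R3.UDist (UD)

/-- the value of the word `w 0, …, w (k - 1)` in base `b` -/
def val (b : ℕ) (w : ℕ → ℕ) : ℕ → ℤ
  | 0 => 0
  | k + 1 => b * val b w k + w k

lemma val_nonneg (b : ℕ) (w : ℕ → ℕ) (k : ℕ) : 0 ≤ val b w k := by
  induction k with
  | zero => exact le_rfl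
  | succ k ih =>
    unfold val
    positivity

lemma val_lt {b : ℕ} (w : ℕ → ℕ) (hw : ∀ k, w k < b) (k : ℕ) : val b w k + 1 ≤ (b : ℤ) ^ k := by
  induction k with
  | zero => simp [val]
  | succ k ih =>
    unfold val
    have h1 : (w k : ℤ) + 1 ≤ b := by exact_mod_cast hw k
    have h2 : (0 : ℤ) ≤ b := Int.natCast_nonneg b
    rw [pow_succ]
    nlinarith

lemma floor_div {b : ℕ} (hb : 2 ≤ b) (t : ℝ) (k : ℕ) :
    ⌊t * (b : ℝ) ^ (k + 1)⌋ / (b : ℤ) = ⌊t * (b : ℝ) ^ k⌋ := by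
  have hb0 : (b : ℝ) ≠ 0 := by
    have : (0 : ℝ) < b := by exact_mod_cast (by omega : 0 < b)
    exact this.ne'
  rw [← Int.floor_div_natCast, pow_succ]
  congr 1
  field_simp

lemma digits_iff {b : ℕ} (hb : 2 ≤ b) (w : ℕ → ℕ) (hw : ∀ k, w k < b) {t : ℝ} (ht0 : 0 ≤ t)
    (ht1 : t < 1) (k : ℕ) :
    (∀ j, j < k → ⌊t * (b : ℝ) ^ (j + 1)⌋ % (b : ℤ) = w j) ↔ ⌊t * (b : ℝ) ^ k⌋ = val b w k := by
  have hbz : (0 : ℤ) < b := by exact_mod_cast (by omega : 0 < b)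
  induction k with
  | zero =>
    simp only [Nat.not_lt_zero, IsEmpty.forall_iff, implies_true, pow_zero, mul_one, true_iff, val]
    rw [Int.floor_eq_zero_iff]
    exact ⟨ht0, ht1⟩
  | succ k ih =>
    have h1 := floor_div hb t k
    have h2 := Int.mul_ediv_add_emod ⌊t * (b : ℝ) ^ (k + 1)⌋ (b : ℤ)
    have hwk : (w k : ℤ) < b := by exact_mod_cast hw k
    have hwk0 : (0 : ℤ) ≤ w k := Int.natCast_nonneg _
    constructor
    · intro h
      have h3 := ih.1 fun j hj => h j (by omega)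
      have h4 := h k (by omega)
      unfold val
      rw [← h2, h1, h3, h4]
    · intro h
      have h3 : ⌊t * (b : ℝ) ^ k⌋ = val b w k := by
        rw [← h1, h, val, Int.mul_add_ediv_left _ _ hbz.ne', Int.ediv_eq_zero_of_lt hwk0 hwk, add_zero]
      intro j hj
      rcases Nat.lt_succ_iff_lt_or_eq.1 hj with h4 | h4
      · exact ih.2 h3 j h4
      · subst h4
        rw [h, val, Int.mul_add_emod_self_left, Int.emod_eq_of_lt hwk0 hwk]

/-- the frequency of every word of `k ≥ 1` digits in base `b` of `x` is `b ^ (-k)` -/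
def NormalTo (b : ℕ) (x : ℝ) : Prop :=
  ∀ k : ℕ, 0 < k → ∀ w : Fin k → Fin b,
    Tendsto
      (fun n : ℕ =>
        ((((range n).filter
            (fun i : ℕ => ∀ j : Fin k,
              ⌊x * (b : ℝ) ^ (i + 1 + (j : ℕ))⌋ % (b : ℤ) = (((w j : ℕ)) : ℤ))).card : ℝ)
          / (n : ℝ)))
      atTop (𝓝 ((1 : ℝ) / (b : ℝ) ^ k))

lemma floor_shift {b : ℕ} (x : ℝ) (i j : ℕ) :
    ⌊x * (b : ℝ) ^ (i + 1 + j)⌋ % (b : ℤ) = ⌊Int.fract ((b : ℝ) ^ i * x) * (b : ℝ) ^ (j + 1)⌋ % (b : ℤ) := by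
  have e : x * (b : ℝ) ^ (i + 1 + j) = Int.fract ((b : ℝ) ^ i * x) * (b : ℝ) ^ (j + 1) +
      ((⌊(b : ℝ) ^ i * x⌋ * (b : ℤ) ^ (j + 1) : ℤ) : ℝ) := by
    have h := Int.fract_add_floor ((b : ℝ) ^ i * x)
    push_cast
    rw [← add_mul, h]
    ring
  rw [e, Int.floor_add_intCast, pow_succ (b : ℤ) j, ← mul_assoc, Int.add_mul_emod_self_right]

theorem normalTo_of_ud {b : ℕ} (hb : 2 ≤ b) {x : ℝ} (h : UD fun n => (b : ℝ) ^ n * x) :
    NormalTo b x := by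
  intro k hk w
  have hb0 : (0 : ℝ) < b := by exact_mod_cast (by omega : 0 < b)
  set w' : ℕ → ℕ := fun j => if hj : j < k then (w ⟨j, hj⟩ : ℕ) else 0 with hw'
  have hw1 : ∀ j, w' j < b := by
    intro j
    rw [hw']
    dsimp only
    split_ifs with hj
    · exact (w ⟨j, hj⟩).2
    · omega
  have hw2 : ∀ j : Fin k, w' j = (w j : ℕ) := by
    intro j
    rw [hw']
    dsimp only
    rw [dif_pos j.2]
  set v := val b w' k with hv
  have hv0 : (0 : ℝ) ≤ v := by exact_mod_cast val_nonneg b w' k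
  have hv1 : (v : ℝ) + 1 ≤ (b : ℝ) ^ k := by exact_mod_cast val_lt w' hw1 k
  have hbk : 0 < (b : ℝ) ^ k := by positivity
  have h1 := h ((v : ℝ) / (b : ℝ) ^ k) (((v : ℝ) + 1) / (b : ℝ) ^ k) (by positivity)
    (div_le_div_of_nonneg_right (by linarith) hbk.le) ((div_le_one hbk).2 hv1)
  have e1 : ((v : ℝ) + 1) / (b : ℝ) ^ k - (v : ℝ) / (b : ℝ) ^ k = 1 / (b : ℝ) ^ k := by
    rw [← sub_div, add_sub_cancel_left]
  rw [e1] at h1
  refine h1.congr fun n => ?_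
  congr 2
  congr 1
  refine Finset.filter_congr fun i _ => ?_
  set t := Int.fract ((b : ℝ) ^ i * x) with ht
  have h2 := digits_iff hb w' hw1 (Int.fract_nonneg ((b : ℝ) ^ i * x)) (Int.fract_lt_one _) k
  rw [← ht] at h2
  have h3 : (∀ j : Fin k, ⌊x * (b : ℝ) ^ (i + 1 + (j : ℕ))⌋ % (b : ℤ) = (((w j : ℕ)) : ℤ)) ↔
      (∀ j, j < k → ⌊t * (b : ℝ) ^ (j + 1)⌋ % (b : ℤ) = w' j) := by
    constructor
    · intro h4 j hj
      have h5 := h4 ⟨j, hj⟩
      rw [floor_shift, ← ht] at h5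
      rw [h5]
      exact_mod_cast (hw2 ⟨j, hj⟩).symm
    · intro h4 j
      rw [floor_shift, ← ht, h4 j j.2, hw2 j]
  rw [h3, h2, Int.floor_eq_iff, ← hv, div_le_iff₀ hbk, lt_div_iff₀ hbk]

end Pool.Agent.K9h10.SM
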