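import Mathlib
import Pool.Agent.K9h10.SM.Est
import Pool.Agent.K9h10.SM.Norm

set_option autoImplicit false
set_option linter.unusedSectionVars false

/-!
# Multiples by random numbers are normal
-/

namespace Pool.Agent.K9h10.SM

open MeasureTheory ProbabilityTheory Finset Filter Topology
open Pool.Agent.H534R3.UDist (ee norm_ee UD Weyl ud_of_weyl)

variable {Ω : Type*} [MeasurableSpace Ω] {P : Measure Ω} [IsProbabilityMeasure P]

lemma FV (y : ℕ → ℝ) (c : ℕ → ℕ → ℝ) (n G : ℕ) (z : ℕ → ℤ) :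
    Fz y c n G z * Vz c n G z = ee (y n + ∑ k ∈ range (n + G), c n k * z k) := by
  unfold Fz Vz
  rw [ee_add, ee_sum, mul_assoc, Finset.prod_range_mul_prod_Ico _ (by omega)]

/-- the exponential sums along the fourth powers -/
lemma weyl_ae {b : ℕ} (hb : 2 ≤ b) {α : ℝ} (hα : Irrational α) (hL : ¬ Liouville α) (y0 : ℝ) {h : ℤ}
    (hh : h ≠ 0) {X : ℕ → Ω → ℤ} (hX : ∀ i, Measurable (X i)) (hI : iIndepFun X P) (K : ℝ)
    (hK : ∀ i ω, |(X i ω : ℝ)| ≤ K) (a a' : ℕ → ℤ) (haa : ∀ i, a i ≠ a' i) (T : ℕ) (hT : 0 < T)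
    (haT : ∀ i, (a' i - a i) ∣ (T : ℤ))
    (hv : Tendsto (fun i : ℕ => P.real {ω | X i ω = a i} * P.real {ω | X i ω = a' i} *
      Real.log i) atTop atTop) :
    ∀ᵐ ω ∂P, Tendsto (fun N : ℕ => ‖∑ n ∈ range N,
      ee (h * ((b : ℝ) ^ n * (y0 + α * ∑' i, (X i ω : ℝ) / (b : ℝ) ^ i)))‖ / N) atTop (𝓝 0) := by
  have hb2 : (2 : ℝ) ≤ b := by exact_mod_cast hb
  have hb0 : (0 : ℝ) < b := by linarith
  set y : ℕ → ℝ := fun n => h * ((b : ℝ) ^ n * y0) with hy
  set c := cf b (h * α) with hc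
  set e : ℕ → ℕ → ℂ := fun k n => ∫ ω, Vz c n k (fun i => X i ω) ∂P with he
  have he1 : ∀ k n, ‖e k n‖ ≤ 1 := by
    intro k n
    have := norm_integral_le_of_norm_le_const (μ := P) (f := fun ω => Vz c n k (fun k => X k ω))
      (C := 1) (Filter.Eventually.of_forall fun ω => (norm_Vz _ _ _ _).le)
    simpa [he] using this
  set Z : ℕ → Ω → ℂ := fun k ω =>
    (∑ n ∈ range (k ^ 4), Dz y c n k (e k n) (fun i => X i ω)) / ((k : ℂ) ^ 4) with hZ
  have hZm : ∀ k, Measurable (Z k) := fun k =>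
    (Finset.measurable_sum _ fun n _ => meas_Dz hX y c n k (e k n)).div_const _
  have hZ2 : ∀ k, ∫ ω, ‖Z k ω‖ ^ 2 ∂P ≤ 16 * (1 / (k : ℝ) ^ 3) := by
    intro k
    have h1 := second_moment hX hI y c k (e k) (fun n => rfl) (k ^ 4)
    have e1 : ∀ ω, ‖Z k ω‖ ^ 2 =
        ‖∑ n ∈ range (k ^ 4), Dz y c n k (e k n) (fun i => X i ω)‖ ^ 2 * (1 / (k : ℝ) ^ 8) := by
      intro ω
      rw [hZ]
      simp only [norm_div, norm_pow, Complex.norm_natCast]
      rw [div_pow]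
      ring
    simp_rw [e1]
    rw [integral_mul_const]
    refine (mul_le_mul_of_nonneg_right h1 (by positivity)).trans (le_of_eq ?_)
    rcases Nat.eq_zero_or_pos k with rfl | hk
    · simp
    · have : (k : ℝ) ≠ 0 := by exact_mod_cast hk.ne'
      push_cast
      field_simp
  have hsum : Summable fun k : ℕ => 16 * (1 / (k : ℝ) ^ 3) :=
    (Real.summable_one_div_nat_pow.2 (by norm_num)).mul_left 16
  have hZb : ∀ k ω, ‖Z k ω‖ ≤ 2 := by
    intro k ω
    rw [hZ]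
    simp only [norm_div, norm_pow, Complex.norm_natCast]
    rcases Nat.eq_zero_or_pos k with rfl | hk
    · simp
    · have hk0 : (0 : ℝ) < (k : ℝ) ^ 4 := by positivity
      rw [div_le_iff₀ hk0]
      calc ‖∑ n ∈ range (k ^ 4), Dz y c n k (e k n) (fun i => X i ω)‖
          ≤ ∑ n ∈ range (k ^ 4), ‖Dz y c n k (e k n) (fun i => X i ω)‖ := norm_sum_le _ _
        _ ≤ ∑ _n ∈ range (k ^ 4), (2 : ℝ) :=
          Finset.sum_le_sum fun n _ => norm_Dz y c n k (e k n) (he1 k n) _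
        _ = 2 * (k : ℝ) ^ 4 := by
          rw [Finset.sum_const, Finset.card_range, nsmul_eq_mul]
          push_cast
          ring
  have hae := ae_tendsto hZm (fun _ => 2) hZb _ hsum hZ2
  filter_upwards [hae] with ω hω
  refine interp _ (fun n => (norm_ee _).le) ?_
  set x := ∑' i, (X i ω : ℝ) / (b : ℝ) ^ i with hx
  have htail := (tail hb (fun i => X i ω) K (fun i => hK i ω)).2
  have hK0 : 0 ≤ K := (abs_nonneg _).trans (hK 0 ω)
  set C : ℝ := 4 * Real.pi * |(h : ℝ) * α| * K with hC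
  have hC0 : 0 ≤ C := by positivity
  -- the pointwise bound
  have hpt : ∀ k n, ‖ee (h * ((b : ℝ) ^ n * (y0 + α * x))) -
      (Dz y c n k (e k n) (fun i => X i ω) + e k n * Fz y c n k (fun i => X i ω))‖ ≤
      C / (b : ℝ) ^ k := by
    intro k n
    have e1 : Dz y c n k (e k n) (fun i => X i ω) + e k n * Fz y c n k (fun i => X i ω) =
        ee (y n + ∑ j ∈ range (n + k), c n j * X j ω) := by
      rw [← FV, Dz]
      ring
    rw [e1]
    refine (norm_ee_sub _ _).trans ?_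
    have e2 : (h : ℝ) * ((b : ℝ) ^ n * (y0 + α * x)) - (y n + ∑ j ∈ range (n + k), c n j * X j ω) =
        (h * α) * (b : ℝ) ^ n * (x - ∑ j ∈ range (n + k), (X j ω : ℝ) / (b : ℝ) ^ j) := by
      have e3 : ∑ j ∈ range (n + k), c n j * X j ω =
          (h * α) * (b : ℝ) ^ n * ∑ j ∈ range (n + k), (X j ω : ℝ) / (b : ℝ) ^ j := by
        rw [Finset.mul_sum]
        refine Finset.sum_congr rfl fun j _ => ?_
        rw [hc, cf]
        ring
      rw [e3, hy]
      ring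
    rw [e2, abs_mul, abs_mul, abs_of_pos (pow_pos hb0 n)]
    have h1 := htail (n + k)
    calc 2 * Real.pi * (|(h : ℝ) * α| * (b : ℝ) ^ n *
          |x - ∑ j ∈ range (n + k), (X j ω : ℝ) / (b : ℝ) ^ j|)
        ≤ 2 * Real.pi * (|(h : ℝ) * α| * (b : ℝ) ^ n * (2 * K / (b : ℝ) ^ (n + k))) := by
          refine mul_le_mul_of_nonneg_left ?_ (by positivity)
          exact mul_le_mul_of_nonneg_left h1 (by positivity)
      _ = C / (b : ℝ) ^ k := by
          rw [hC, pow_add]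
          field_simp
          ring
  rw [tendsto_order]
  refine ⟨fun c' hc' => Eventually.of_forall fun k => lt_of_lt_of_le hc' (by positivity),
    fun δ hδ => ?_⟩
  have hev1 := e_small' hb hα hL hh hX hI a a' haa T hT haT hv (δ / 5) (by positivity)
  have hev2 : ∀ᶠ k : ℕ in atTop, ‖Z k ω‖ < δ / 5 := by
    have := (tendsto_zero_iff_norm_tendsto_zero.1 hω)
    exact this.eventually (gt_mem_nhds (by positivity))
  have hev3 : ∀ᶠ k : ℕ in atTop, C / (b : ℝ) ^ k < δ / 5 := by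
    have h1 : Tendsto (fun k : ℕ => C / (b : ℝ) ^ k) atTop (𝓝 0) :=
      tendsto_const_nhds.div_atTop (tendsto_pow_atTop_atTop_of_one_lt (by linarith))
    exact h1.eventually (gt_mem_nhds (by positivity))
  have hev4 : ∀ᶠ k : ℕ in atTop, 1 / (k : ℝ) < δ / 5 :=
    tendsto_one_div_atTop_nhds_zero_nat.eventually (gt_mem_nhds (by positivity))
  filter_upwards [hev1, hev2, hev3, hev4, eventually_gt_atTop 0] with k h1 h2 h3 h4 hk
  have hkR : (1 : ℝ) ≤ k := by exact_mod_cast hk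
  have hk0 : (0 : ℝ) < (k : ℝ) ^ 4 := by positivity
  rw [div_lt_iff₀ hk0]
  have hsE : ∑ n ∈ range (k ^ 4), ‖e k n‖ ≤ (k : ℝ) ^ 2 + (k : ℝ) ^ 4 * (δ / 5) := by
    have h5 : ∀ n ∈ range (k ^ 4), ‖e k n‖ ≤ (if n < k ^ 2 then (1 : ℝ) else 0) + δ / 5 := by
      intro n hn
      split_ifs with h6
      · have := he1 k n
        linarith
      · rw [zero_add]
        exact h1 n (by omega) (Finset.mem_range.1 hn)
    refine (Finset.sum_le_sum h5).trans ?_
    rw [Finset.sum_add_distrib, Finset.sum_const, Finset.card_range, nsmul_eq_mul]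
    push_cast
    have h6 : ∑ n ∈ range (k ^ 4), (if n < k ^ 2 then (1 : ℝ) else 0) ≤ (k : ℝ) ^ 2 := by
      rw [← Finset.sum_filter, Finset.sum_const, nsmul_eq_mul, mul_one]
      have : ((range (k ^ 4)).filter fun n => n < k ^ 2).card ≤ k ^ 2 := by
        calc ((range (k ^ 4)).filter fun n => n < k ^ 2).card ≤ (range (k ^ 2)).card := by
              refine Finset.card_le_card fun n hn => ?_
              rw [Finset.mem_filter] at hn
              exact Finset.mem_range.2 hn.2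
          _ = k ^ 2 := Finset.card_range _
      exact_mod_cast this
    linarith
  have hZk : ‖∑ n ∈ range (k ^ 4), Dz y c n k (e k n) (fun i => X i ω)‖ = ‖Z k ω‖ * (k : ℝ) ^ 4 := by
    rw [hZ]
    simp only [norm_div, norm_pow, Complex.norm_natCast]
    field_simp
  set u : ℕ → ℂ := fun n => ee (h * ((b : ℝ) ^ n * (y0 + α * x))) with hu
  have hdec : ∑ n ∈ range (k ^ 4), u n =
      ∑ n ∈ range (k ^ 4), (u n - (Dz y c n k (e k n) (fun i => X i ω) +
        e k n * Fz y c n k (fun i => X i ω))) +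
      ∑ n ∈ range (k ^ 4), Dz y c n k (e k n) (fun i => X i ω) +
      ∑ n ∈ range (k ^ 4), e k n * Fz y c n k (fun i => X i ω) := by
    rw [← Finset.sum_add_distrib, ← Finset.sum_add_distrib]
    refine Finset.sum_congr rfl fun n _ => ?_
    ring
  have hb1 : ‖∑ n ∈ range (k ^ 4), (u n - (Dz y c n k (e k n) (fun i => X i ω) +
        e k n * Fz y c n k (fun i => X i ω)))‖ ≤ (k : ℝ) ^ 4 * (C / (b : ℝ) ^ k) := by
    refine (norm_sum_le _ _).trans ?_
    refine (Finset.sum_le_sum fun n _ => hpt k n).trans ?_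
    rw [Finset.sum_const, Finset.card_range, nsmul_eq_mul]
    push_cast
    exact le_rfl
  have hb2' : ‖∑ n ∈ range (k ^ 4), e k n * Fz y c n k (fun i => X i ω)‖ ≤
      (k : ℝ) ^ 2 + (k : ℝ) ^ 4 * (δ / 5) := by
    refine (norm_sum_le _ _).trans ?_
    refine le_trans (Finset.sum_le_sum fun n _ => ?_) hsE
    rw [norm_mul, norm_Fz, mul_one]
  have hk2 : (k : ℝ) ^ 2 ≤ (k : ℝ) ^ 4 * (δ / 5) := by
    have h5 : (k : ℝ) ^ 2 ≤ (k : ℝ) ^ 3 := pow_le_pow_right₀ hkR (by norm_num)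
    have h6 : (k : ℝ) ^ 3 = (k : ℝ) ^ 4 * (1 / k) := by
      have : (k : ℝ) ≠ 0 := by positivity
      field_simp
    calc (k : ℝ) ^ 2 ≤ (k : ℝ) ^ 4 * (1 / k) := by rw [← h6]; exact h5
      _ ≤ (k : ℝ) ^ 4 * (δ / 5) := mul_le_mul_of_nonneg_left h4.le hk0.le
  calc ‖∑ n ∈ range (k ^ 4), u n‖
      ≤ ‖∑ n ∈ range (k ^ 4), (u n - (Dz y c n k (e k n) (fun i => X i ω) +
          e k n * Fz y c n k (fun i => X i ω)))‖ +
        ‖∑ n ∈ range (k ^ 4), Dz y c n k (e k n) (fun i => X i ω)‖ +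
        ‖∑ n ∈ range (k ^ 4), e k n * Fz y c n k (fun i => X i ω)‖ := by
        rw [hdec]
        exact norm_add₃_le
    _ ≤ (k : ℝ) ^ 4 * (C / (b : ℝ) ^ k) + ‖Z k ω‖ * (k : ℝ) ^ 4 +
        ((k : ℝ) ^ 4 * (δ / 5) + (k : ℝ) ^ 4 * (δ / 5)) := by
        rw [hZk]
        linarith
    _ < δ * (k : ℝ) ^ 4 := by
        have h5 : (k : ℝ) ^ 4 * (C / (b : ℝ) ^ k) < (k : ℝ) ^ 4 * (δ / 5) :=
          mul_lt_mul_of_pos_left h3 hk0
        have h6 : ‖Z k ω‖ * (k : ℝ) ^ 4 < δ / 5 * (k : ℝ) ^ 4 := mul_lt_mul_of_pos_right h2 hk0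
        nlinarith

/-- **Normality** -/
theorem normal_ae {b : ℕ} (hb : 2 ≤ b) {α : ℝ} (hα : Irrational α) (hL : ¬ Liouville α) (y0 : ℝ)
    {X : ℕ → Ω → ℤ} (hX : ∀ i, Measurable (X i)) (hI : iIndepFun X P) (K : ℝ)
    (hK : ∀ i ω, |(X i ω : ℝ)| ≤ K) (a a' : ℕ → ℤ) (haa : ∀ i, a i ≠ a' i) (T : ℕ) (hT : 0 < T)
    (haT : ∀ i, (a' i - a i) ∣ (T : ℤ))
    (hv : Tendsto (fun i : ℕ => P.real {ω | X i ω = a i} * P.real {ω | X i ω = a' i} *
      Real.log i) atTop atTop) :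
    ∀ᵐ ω ∂P, NormalTo b (y0 + α * ∑' i, (X i ω : ℝ) / (b : ℝ) ^ i) := by
  have h1 : ∀ᵐ ω ∂P, ∀ h : ℕ, 1 ≤ h → Tendsto (fun N : ℕ => ‖∑ n ∈ range N,
      ee (h * ((b : ℝ) ^ n * (y0 + α * ∑' i, (X i ω : ℝ) / (b : ℝ) ^ i)))‖ / N) atTop (𝓝 0) := by
    rw [ae_all_iff]
    intro h
    by_cases hh : 1 ≤ h
    · have := weyl_ae hb hα hL y0 (h := (h : ℤ)) (by omega) hX hI K hK a a' haa T hT haT hv
      filter_upwards [this] with ω hω _
      exact_mod_cast hω
    · exact Eventually.of_forall fun ω h2 => absurd h2 hh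
  filter_upwards [h1] with ω hω
  exact normalTo_of_ud hb (ud_of_weyl _ hω)

lemma exists_pair {X : Ω → ℤ} {K : ℕ} (hK : 1 ≤ K) (h : ∀ ω, |X ω| ≤ (K : ℤ)) :
    ∃ a a' : ℤ, a ≠ a' ∧ |a| ≤ (K : ℤ) ∧ |a'| ≤ (K : ℤ) ∧ P.real {ω | X ω ≠ a} ≤
      (2 * (K : ℝ) + 1) ^ 2 * (P.real {ω | X ω = a} * P.real {ω | X ω = a'}) := by
  classical
  set s : Finset ℤ := Finset.Icc (-(K : ℤ)) K with hs
  have hcard : s.card = 2 * K + 1 := by
    rw [hs, Int.card_Icc]
    omega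
  have hmem : ∀ ω, X ω ∈ s := by
    intro ω
    rw [hs, Finset.mem_Icc]
    exact abs_le.1 (h ω)
  obtain ⟨a, ha, hamax⟩ := Finset.exists_max_image s (fun v => P.real {ω | X ω = v})
    (Finset.card_pos.1 (by omega))
  obtain ⟨a', ha', hamax'⟩ := Finset.exists_max_image (s.erase a) (fun v => P.real {ω | X ω = v})
    (Finset.card_pos.1 (by rw [Finset.card_erase_of_mem ha]; omega))
  rw [Finset.mem_erase] at ha'
  have h1 : (1 : ℝ) ≤ (2 * (K : ℝ) + 1) * P.real {ω | X ω = a} := by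
    have e1 : (Set.univ : Set Ω) ⊆ ⋃ v ∈ s, {ω | X ω = v} := by
      intro ω _
      simp only [Set.mem_iUnion]
      exact ⟨X ω, hmem ω, rfl⟩
    calc (1 : ℝ) = P.real Set.univ := by simp
      _ ≤ P.real (⋃ v ∈ s, {ω | X ω = v}) := measureReal_mono e1 (measure_ne_top _ _)
      _ ≤ ∑ v ∈ s, P.real {ω | X ω = v} := measureReal_biUnion_finset_le _ _
      _ ≤ ∑ _v ∈ s, P.real {ω | X ω = a} := Finset.sum_le_sum fun v hv => hamax v hv
      _ = (2 * (K : ℝ) + 1) * P.real {ω | X ω = a} := by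
        rw [Finset.sum_const, hcard, nsmul_eq_mul]
        push_cast
        ring
  have h2 : P.real {ω | X ω ≠ a} ≤ (2 * (K : ℝ) + 1) * P.real {ω | X ω = a'} := by
    have e1 : {ω | X ω ≠ a} ⊆ ⋃ v ∈ s.erase a, {ω | X ω = v} := by
      intro ω hω
      simp only [Set.mem_iUnion]
      exact ⟨X ω, Finset.mem_erase.2 ⟨hω, hmem ω⟩, rfl⟩
    have h0 : 0 ≤ P.real {ω | X ω = a'} := measureReal_nonneg
    calc P.real {ω | X ω ≠ a} ≤ P.real (⋃ v ∈ s.erase a, {ω | X ω = v}) := measureReal_mono e1 (measure_ne_top _ _)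
      _ ≤ ∑ v ∈ s.erase a, P.real {ω | X ω = v} := measureReal_biUnion_finset_le _ _
      _ ≤ ∑ _v ∈ s.erase a, P.real {ω | X ω = a'} := Finset.sum_le_sum fun v hv => hamax' v hv
      _ = (2 * (K : ℝ)) * P.real {ω | X ω = a'} := by
        rw [Finset.sum_const, Finset.card_erase_of_mem ha, hcard, nsmul_eq_mul]
        push_cast
        ring
      _ ≤ (2 * (K : ℝ) + 1) * P.real {ω | X ω = a'} :=
        mul_le_mul_of_nonneg_right (by linarith) h0
  refine ⟨a, a', fun h3 => ha'.1 h3.symm, ?_, ?_, ?_⟩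
  · rw [hs, Finset.mem_Icc] at ha
    exact abs_le.2 ha
  · have := ha'.2
    rw [hs, Finset.mem_Icc] at this
    exact abs_le.2 this
  · have h0 : 0 ≤ (2 * (K : ℝ) + 1) * P.real {ω | X ω = a'} :=
      mul_nonneg (by positivity) measureReal_nonneg
    nlinarith

/-- **Normality**, in the form without reference to the most likely values -/
theorem normal_ae' {b : ℕ} (hb : 2 ≤ b) {α : ℝ} (hα : Irrational α) (hL : ¬ Liouville α) (y0 : ℝ)
    {X : ℕ → Ω → ℤ} (hX : ∀ i, Measurable (X i)) (hI : iIndepFun X P) (K : ℕ)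
    (hK : ∀ i ω, |X i ω| ≤ (K : ℤ))
    (hv : ∀ a : ℕ → ℤ, Tendsto (fun i : ℕ => P.real {ω | X i ω ≠ a i} * Real.log i) atTop atTop) :
    ∀ᵐ ω ∂P, NormalTo b (y0 + α * ∑' i, (X i ω : ℝ) / (b : ℝ) ^ i) := by
  have hK' : ∀ i ω, |X i ω| ≤ ((K + 1 : ℕ) : ℤ) := by
    intro i ω
    have := hK i ω
    push_cast
    omega
  have key : ∀ i, ∃ a a' : ℤ, a ≠ a' ∧ |a| ≤ ((K + 1 : ℕ) : ℤ) ∧ |a'| ≤ ((K + 1 : ℕ) : ℤ) ∧
      P.real {ω | X i ω ≠ a} ≤ (2 * ((K + 1 : ℕ) : ℝ) + 1) ^ 2 *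
        (P.real {ω | X i ω = a} * P.real {ω | X i ω = a'}) :=
    fun i => exists_pair (by omega) (hK' i)
  choose a a' haa ha1 ha2 ha3 using key
  have hcast : ∀ i ω, |(X i ω : ℝ)| ≤ ((K : ℕ) : ℝ) := by
    intro i ω
    have := hK i ω
    exact_mod_cast this
  refine normal_ae hb hα hL y0 hX hI (K : ℝ) hcast a a' haa (2 * (K + 1)).factorial
    (Nat.factorial_pos _) ?_ ?_
  · intro i
    have h1 := haa i
    have h2 := abs_le.1 (ha1 i)
    have h3 := abs_le.1 (ha2 i)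
    rw [← Int.natAbs_dvd]
    have h4 : (a' i - a i).natAbs ≤ 2 * (K + 1) := by omega
    have h5 : 0 < (a' i - a i).natAbs := by omega
    exact_mod_cast Nat.dvd_factorial h5 h4
  · have h1 := (hv a).const_mul_atTop
      (show (0 : ℝ) < 1 / (2 * ((K + 1 : ℕ) : ℝ) + 1) ^ 2 by positivity)
    refine tendsto_atTop_mono' atTop ?_ h1
    filter_upwards [eventually_ge_atTop 1] with i hi
    have hlog : 0 ≤ Real.log i := Real.log_nonneg (by exact_mod_cast hi)
    rw [← mul_assoc]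
    refine mul_le_mul_of_nonneg_right ?_ hlog
    rw [one_div, inv_mul_le_iff₀ (by positivity)]
    exact ha3 i

end Pool.Agent.K9h10.SM
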