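import Mathlib
import Pool.Agent.TH456.TM.AlgDep
import Pool.Agent.TH456.TM.Inst
import Pool.Agent.TH796.AL.Ai2

set_option autoImplicit false

/-!
# Irrational numbers algebraic over the field of `π` are not Liouville numbers
-/

namespace Pool.Agent.K9h10.SM

open Polynomial
open Pool.Agent.TH456.TM (MeasT measT_pi measT_of_isAlgebraic)

/-- a number with a transcendence measure is not a Liouville number -/
theorem not_liouville_of_measT {t : ℝ} (h : MeasT (t : ℂ)) : ¬ Liouville t := by
  intro hL
  obtain ⟨κ, c, hκ, hc, hP⟩ := h 1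
  set A : ℝ := |t| + 1 with hA
  have hA1 : 1 ≤ A := by
    have := abs_nonneg t
    linarith
  have hAκ : 0 < A ^ κ := Real.rpow_pos_of_pos (by linarith) _
  obtain ⟨m, hm⟩ := exists_nat_ge κ
  -- choose the exponent
  obtain ⟨s, hs⟩ := exists_pow_lt_of_lt_one (show 0 < c / A ^ κ by positivity)
    (show (1 / 2 : ℝ) < 1 by norm_num)
  obtain ⟨a, q, hq, hne, hlt⟩ := hL (m + 1 + s)
  have hq0 : (0 : ℝ) < q := by exact_mod_cast (by omega : 0 < q)
  have hq2 : (2 : ℝ) ≤ q := by exact_mod_cast (by omega : 2 ≤ q)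
  have hlt1 : |t - a / q| < 1 := by
    refine hlt.trans_le ?_
    rw [div_le_one (by positivity)]
    exact one_le_pow₀ (by linarith)
  have hlin : |(q : ℝ) * t - a| = q * |t - a / q| := by
    rw [← abs_of_pos hq0, ← abs_mul, abs_of_pos hq0]
    congr 1
    field_simp
  have ha : |(a : ℝ)| ≤ A * q := by
    have h1 : |(a : ℝ)| ≤ |(q : ℝ) * t| + |(q : ℝ) * t - a| := by
      have := abs_sub_abs_le_abs_sub (a : ℝ) ((q : ℝ) * t)
      rw [abs_sub_comm] at this
      linarith
    rw [hlin, abs_mul, abs_of_pos hq0] at h1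
    rw [hA]
    nlinarith
  have h1 := hP (C q * X - C a) (by
      intro h0
      have h1 : (C q * X - C a : ℤ[X]).coeff 1 = 0 := by rw [h0, coeff_zero]
      rw [coeff_sub, coeff_C_mul, coeff_X, coeff_C, if_pos rfl, if_neg one_ne_zero] at h1
      omega) (by
      refine (natDegree_sub_le _ _).trans ?_
      simp only [natDegree_C, max_le_iff, zero_le, and_true]
      exact (natDegree_C_mul_le _ _).trans natDegree_X_le) (A * q) (by nlinarith) (by
      intro j
      have e1 : (C q * X - C a : ℤ[X]).coeff j =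
          q * (if 1 = j then 1 else 0) - (if j = 0 then a else 0) := by
        rw [coeff_sub, coeff_C_mul, coeff_X, coeff_C]
      rw [e1]
      rcases Nat.eq_zero_or_pos j with rfl | hj
      · simpa using ha
      · rw [if_neg (by omega : ¬ j = 0), sub_zero]
        split_ifs
        · rw [mul_one, abs_of_pos hq0]
          nlinarith
        · simp
          positivity)
  have h2 : ‖aeval (t : ℂ) (C q * X - C a : ℤ[X])‖ = |(q : ℝ) * t - a| := by
    have : aeval (t : ℂ) (C q * X - C a : ℤ[X]) = (((q : ℝ) * t - a : ℝ) : ℂ) := by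
      simp
    rw [this, Complex.norm_real, Real.norm_eq_abs]
  rw [h2, hlin] at h1
  have h3 : (A * q) ^ κ ≤ A ^ κ * (q : ℝ) ^ m := by
    rw [Real.mul_rpow (by linarith) hq0.le]
    refine mul_le_mul_of_nonneg_left ?_ hAκ.le
    rw [← Real.rpow_natCast]
    exact Real.rpow_le_rpow_of_exponent_le (by linarith) hm
  have h4 : c < c := by
    calc c ≤ (A * q) ^ κ * (q * |t - a / q|) := h1
      _ ≤ (A ^ κ * (q : ℝ) ^ m) * (q * (1 / (q : ℝ) ^ (m + 1 + s))) := by
          refine mul_le_mul h3 (mul_le_mul_of_nonneg_left hlt.le hq0.le) (by positivity) (by positivity)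
      _ = A ^ κ * (1 / q) ^ s := by
          rw [pow_add, pow_add, pow_one, div_pow, one_pow]
          field_simp
      _ ≤ A ^ κ * (1 / 2) ^ s := by
          refine mul_le_mul_of_nonneg_left (pow_le_pow_left₀ (by positivity) ?_ s) hAκ.le
          exact one_div_le_one_div_of_le (by norm_num) hq2
      _ < A ^ κ * (c / A ^ κ) := mul_lt_mul_of_pos_left hs hAκ
      _ = c := by field_simp
  exact lt_irrefl _ h4

/-- a number algebraic over the field of a number with a transcendence measure is
not a Liouville number -/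
theorem not_liouville_of_alg {z t : ℝ} (hz : MeasT (z : ℂ))
    (h : IsAlgebraic (Algebra.adjoin ℤ ({z} : Set ℝ)) t) : ¬ Liouville t := by
  intro hL
  by_cases ht : Transcendental ℤ t
  · have h1 : Transcendental ℤ (t : ℂ) := by
      intro h2
      exact ht ((isAlgebraic_algebraMap_iff (R := ℤ) (S := ℝ) (A := ℂ)
        Complex.ofReal_injective).1 h2)
    exact not_liouville_of_measT (measT_of_isAlgebraic hz (t : ℂ)
      (Pool.Agent.TH796.AL.Ai.to_complex h) h1) hL
  · exact ht hL.transcendental

theorem not_liouville_of_alg_pi {t : ℝ}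
    (h : IsAlgebraic (Algebra.adjoin ℤ ({Real.pi} : Set ℝ)) t) : ¬ Liouville t :=
  not_liouville_of_alg measT_pi h

lemma countable_adjoin (z : ℝ) : Countable (Algebra.adjoin ℤ ({z} : Set ℝ)) := by
  rw [Algebra.adjoin_singleton_eq_range_aeval]
  have : Countable ℤ[X] := by
    have := Cardinal.mk_le_aleph0_iff (α := ℤ[X])
    rw [← this]
    refine Polynomial.cardinalMk_le_max.trans ?_
    simp
  exact (Set.countable_range (aeval z : ℤ[X] →ₐ[ℤ] ℝ)).to_subtype

end Pool.Agent.K9h10.SM
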